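import Mathlib

set_option autoImplicit false

namespace Pool.Agent.P.MP_e0f0cb_an

open Filter Topology Finset

section alg
variable {A : Type*} [Ring A] [Algebra ℂ A]

lemma pow_succ_apply (D : A →ₗ[ℂ] A) (n : ℕ) (a : A) : (D ^ (n + 1)) a = D ((D ^ n) a) := by
  rw [pow_succ']; rfl

lemma pow_succ_apply' (D : A →ₗ[ℂ] A) (n : ℕ) (a : A) : (D ^ (n + 1)) a = (D ^ n) (D a) := by
  rw [pow_succ]; rfl

lemma pow_add_apply (D : A →ₗ[ℂ] A) (n k : ℕ) (a : A) :
    (D ^ (n + k)) a = (D ^ n) ((D ^ k) a) := by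
  rw [pow_add]; rfl

lemma leibniz (D : A →ₗ[ℂ] A) (hD : ∀ a b, D (a * b) = D a * b + a * D b) (a b : A) (n : ℕ) :
    (D ^ n) (a * b) = ∑ i ∈ range (n + 1), (n.choose i) • ((D ^ i) a * (D ^ (n - i)) b) := by
  induction n with
  | zero => simp
  | succ n ih =>
    rw [pow_succ_apply, ih, map_sum,
      sum_choose_succ_nsmul (fun i j => (D ^ i) a * (D ^ j) b) n, ← sum_add_distrib]
    refine sum_congr rfl (fun i hi => ?_)
    have hi' : i ≤ n := by simpa [Nat.lt_succ_iff] using hi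
    rw [map_nsmul, hD, ← pow_succ_apply, ← pow_succ_apply, smul_add, add_comm,
      show n + 1 - i = n - i + 1 by omega]

lemma pow_leibniz (D : A →ₗ[ℂ] A) (hD : ∀ a b, D (a * b) = D a * b + a * D b)
    (P : Submodule ℂ A) (hl : ∀ a x, x ∈ P → a * x ∈ P) (hr : ∀ a x, x ∈ P → x * a ∈ P)
    (y : A) (hy : y ∈ P) (n : ℕ) :
    (∀ i < n, (D ^ i) (y ^ n) ∈ P) ∧ (D ^ n) (y ^ n) - (n.factorial : ℂ) • (D y) ^ n ∈ P := by
  induction n with
  | zero => simp
  | succ n ih =>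
    obtain ⟨h1, h2⟩ := ih
    constructor
    · intro i hi
      rw [pow_succ' y n, leibniz D hD]
      refine P.sum_mem (fun l hl' => P.nsmul_mem ?_ _)
      rcases l with _ | l
      · exact hr _ _ (by simpa using hy)
      · have : l + 1 ≤ i := by simpa [Nat.lt_succ_iff] using hl'
        exact hl _ _ (h1 _ (by omega))
    · rw [pow_succ' y n, leibniz D hD, sum_range_succ', sum_range_succ']
      have e1 : ∑ k ∈ range n, (n + 1).choose (k + 1 + 1) •
          ((D ^ (k + 1 + 1)) y * (D ^ (n + 1 - (k + 1 + 1))) (y ^ n)) ∈ P := by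
        refine P.sum_mem (fun l hl' => P.nsmul_mem (hl _ _ (h1 _ ?_)) _)
        have : l < n := by simpa using hl'
        omega
      have e2 : (n + 1).choose 0 • ((D ^ 0) y * (D ^ (n + 1 - 0)) (y ^ n)) ∈ P :=
        P.nsmul_mem (hr _ _ (by simpa using hy)) _
      have e3 : (n + 1).choose (0 + 1) • ((D ^ (0 + 1)) y * (D ^ (n + 1 - (0 + 1))) (y ^ n)) -
          ((n + 1).factorial : ℂ) • (D y) ^ (n + 1) ∈ P := by
        have := P.smul_mem ((n + 1 : ℕ) : ℂ) (hl (D y) _ h2)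
        convert this using 1
        simp only [zero_add, Nat.choose_one_right, pow_one, Nat.add_sub_cancel, mul_sub,
          smul_sub, Nat.factorial_succ, Nat.cast_mul, mul_smul_comm, pow_succ' (D y) n, mul_smul,
          Nat.cast_smul_eq_nsmul]
      have := P.add_mem (P.add_mem e1 e3) e2
      convert this using 1
      abel

end alg

section lin
variable {X F : Type*} [NormedAddCommGroup X] [NormedSpace ℂ X] [CompleteSpace X]
  [NormedAddCommGroup F] [NormedSpace ℂ F]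

/-- if all `π D^k` are continuous, they grow at most geometrically -/
theorem sinclair (D : X →ₗ[ℂ] X) (π : X →ₗ[ℂ] F) (h : ∀ k, Continuous (π ∘ₗ D ^ k)) :
    ∃ C K : ℝ, 0 ≤ C ∧ 0 ≤ K ∧ ∀ n a, ‖π ((D ^ n) a)‖ ≤ C * K ^ n * ‖a‖ := by
  let J : Submodule ℂ X := ⨅ k : ℕ, LinearMap.ker (π ∘ₗ D ^ k)
  have hJ : ∀ x, x ∈ J ↔ ∀ k, π ((D ^ k) x) = 0 := fun x => by simp [J]
  have hc : IsClosed (J : Set X) := by
    have : (J : Set X) = ⋂ k : ℕ, {x | (π ∘ₗ D ^ k) x = 0} := by ext x; simp [hJ]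
    rw [this]
    exact isClosed_iInter (fun k => isClosed_eq (h k) continuous_const)
  have hinv : J ≤ J.comap D := fun x hx => (hJ _).2 (fun k => by
    have := (hJ x).1 hx (k + 1)
    rwa [pow_succ] at this)
  let Db : (X ⧸ J) →ₗ[ℂ] (X ⧸ J) := J.mapQ J D hinv
  let p : ℕ → (X ⧸ J) →ₗ[ℂ] F := fun k => J.liftQ (π ∘ₗ D ^ k) (fun x hx => (hJ x).1 hx k)
  have hp : ∀ k x, p k (J.mkQ x) = π ((D ^ k) x) := fun k x => rfl
  have hDb : ∀ x, Db (J.mkQ x) = J.mkQ (D x) := fun x => rfl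
  have hpc : ∀ k, Continuous (p k) := fun k => J.isQuotientMap_mkQ.continuous_iff.2 (h k)
  have hpD : ∀ k x, p k (Db x) = p (k + 1) x := by
    intro k x
    obtain ⟨x, rfl⟩ := J.mkQ_surjective x
    rw [hDb, hp, hp, pow_succ]; rfl
  have hsep : ∀ x, (∀ k, p k x = 0) → x = 0 := by
    intro x hx
    obtain ⟨x, rfl⟩ := J.mkQ_surjective x
    exact (Submodule.Quotient.mk_eq_zero J).2 ((hJ x).2 hx)
  have hDc : Continuous Db := by
    refine Db.continuous_of_seq_closed_graph (fun u x y hu hy => ?_)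
    rw [← sub_eq_zero]
    refine hsep _ (fun k => ?_)
    have h1 : Tendsto (fun n => p k (Db (u n))) atTop (𝓝 (p k y)) := ((hpc k).tendsto y).comp hy
    have h2 : Tendsto (fun n => p k (Db (u n))) atTop (𝓝 (p (k + 1) x)) := by
      simp only [hpD]
      exact ((hpc (k + 1)).tendsto x).comp hu
    rw [map_sub, tendsto_nhds_unique h1 h2, hpD, sub_self]
  let Dc : (X ⧸ J) →L[ℂ] (X ⧸ J) := ⟨Db, hDc⟩
  let p0 : (X ⧸ J) →L[ℂ] F := ⟨p 0, hpc 0⟩
  have hit : ∀ n a, ‖J.mkQ ((D ^ n) a)‖ ≤ ‖Dc‖ ^ n * ‖a‖ := by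
    intro n a
    induction n with
    | zero => simpa using Submodule.Quotient.norm_mk_le (S := J) a
    | succ n ih =>
      have : J.mkQ ((D ^ (n + 1)) a) = Dc (J.mkQ ((D ^ n) a)) := by rw [pow_succ']; rfl
      rw [this, pow_succ', mul_assoc]
      exact (Dc.le_opNorm _).trans (mul_le_mul_of_nonneg_left ih (norm_nonneg _))
  refine ⟨‖p0‖, ‖Dc‖, p0.opNorm_nonneg, Dc.opNorm_nonneg, fun n a => ?_⟩
  have : π ((D ^ n) a) = p0 (J.mkQ ((D ^ n) a)) := by
    change _ = p 0 (J.mkQ ((D ^ n) a))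
    rw [hp]; simp
  rw [this, mul_assoc]
  exact (p0.le_opNorm _).trans (mul_le_mul_of_nonneg_left (hit n a) (norm_nonneg _))

/-- separating space: existence of an element not killed by `π` -/
theorem sep_exists (T : X →ₗ[ℂ] X) (π : X →L[ℂ] F) (h : ¬ ∃ C : ℝ, ∀ x, ‖π (T x)‖ ≤ C * ‖x‖) :
    ∃ s, π s ≠ 0 ∧ ((0 : X), s) ∈ closure (T.graph : Set (X × X)) := by
  by_contra hne
  push Not at hne
  apply h
  let Γ : Submodule ℂ (X × X) := T.graph.topologicalClosure
  have hΓ : ∀ x, (x, T x) ∈ Γ := fun x => T.graph.le_topologicalClosure (by simp)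
  have : CompleteSpace Γ := T.graph.isClosed_topologicalClosure.completeSpace_coe
  let f : Γ →L[ℂ] X := (ContinuousLinearMap.fst ℂ X X).comp Γ.subtypeL
  obtain ⟨C, hC, hC'⟩ := f.exists_preimage_norm_le (fun x => ⟨⟨_, hΓ x⟩, rfl⟩)
  refine ⟨‖π‖ * C, fun x => ?_⟩
  obtain ⟨⟨⟨x', v⟩, hv⟩, h1, h2⟩ := hC' x
  have h1' : x' = x := h1
  subst h1'
  have h3 : ((0 : X), T x' - v) ∈ Γ := by simpa using Γ.sub_mem (hΓ x') hv
  have h4 : π (T x' - v) = 0 := by
    by_contra h5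
    exact hne _ h5 h3
  rw [map_sub, sub_eq_zero] at h4
  rw [h4, mul_assoc]
  exact (π.le_opNorm _).trans (mul_le_mul_of_nonneg_left ((norm_snd_le (x', v)).trans h2)
    (norm_nonneg _))

omit [CompleteSpace X] in
theorem sep_kill (T : X →ₗ[ℂ] X) (π : X →L[ℂ] F) (C : ℝ) (h : ∀ x, ‖π (T x)‖ ≤ C * ‖x‖)
    (s : X) (hs : ((0 : X), s) ∈ closure (T.graph : Set (X × X))) : π s = 0 := by
  have hc : IsClosed {z : X × X | ‖π z.2‖ ≤ C * ‖z.1‖} :=
    isClosed_le (by fun_prop) (by fun_prop)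
  have := closure_minimal (s := (T.graph : Set (X × X))) (fun z hz => by
    have hz' : z.2 = T z.1 := hz
    simp only [Set.mem_ofPred_eq, hz']
    exact h _) hc hs
  simpa using this

omit [CompleteSpace X] in
lemma bound_of_seq (I : Submodule ℂ X) (ψ : X →ₗ[ℂ] ℂ)
    (h : ∀ y : ℕ → X, (∀ k, y k ∈ I) → Tendsto y atTop (𝓝 0) →
      Tendsto (fun k => ψ (y k)) atTop (𝓝 0)) :
    ∃ C : ℝ, 0 ≤ C ∧ ∀ y ∈ I, ‖ψ y‖ ≤ C * ‖y‖ := by
  by_contra hne
  push Not at hne
  choose y hy hy' using fun n : ℕ => hne ((n : ℝ) + 1) (by positivity)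
  have h0 : ∀ n, ψ (y n) ≠ 0 := fun n h0 => by
    have := hy' n
    rw [h0, norm_zero] at this
    exact absurd this (not_lt.2 (by positivity))
  have h1 := h (fun n => (ψ (y n))⁻¹ • y n) (fun n => I.smul_mem _ (hy n)) (by
    rw [tendsto_zero_iff_norm_tendsto_zero]
    refine squeeze_zero (fun n => norm_nonneg _) (fun n => ?_)
      tendsto_one_div_add_atTop_nhds_zero_nat
    have hp : 0 < ‖ψ (y n)‖ := norm_pos_iff.2 (h0 n)
    rw [norm_smul, norm_inv, inv_mul_le_iff₀ hp, mul_one_div, le_div_iff₀ (by positivity),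
      mul_comm]
    exact (hy' n).le)
  simp only [map_smul, smul_eq_mul, inv_mul_cancel₀ (h0 _)] at h1
  exact one_ne_zero (tendsto_nhds_unique tendsto_const_nhds h1)

/-- abstract gliding hump -/
theorem gliding (S τ : ℕ → X →L[ℂ] X) (hS : ∀ n x, ‖S n x‖ ≤ ‖x‖ / 2)
    (hτ : ∀ n x, τ (n + 1) x = τ n (S n x)) (N : X → ℝ)
    (h : ∀ (n : ℕ) (hd : X), ∃ x, ‖x‖ ≤ 1 ∧ ∀ w, ‖w‖ ≤ 2 → (n : ℝ) < N (hd + τ n x + τ (n + 1) w)) :
    False := by
  choose pick hp hp' using h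
  let hd : ℕ → X := fun n => Nat.rec 0 (fun n z => z + τ n (pick n z)) n
  have hd1 : ∀ n, hd (n + 1) = hd n + τ n (pick n (hd n)) := fun n => rfl
  let x : ℕ → X := fun n => pick n (hd n)
  let Φ : BoundedContinuousFunction ℕ X → BoundedContinuousFunction ℕ X := fun w =>
    BoundedContinuousFunction.ofNormedAddCommGroupDiscrete (fun n => x n + S n (w (n + 1)))
      (1 + ‖w‖ / 2) (fun n => (norm_add_le _ _).trans (add_le_add (hp _ _)
        ((hS _ _).trans (by have := w.norm_coe_le_norm (n + 1); linarith))))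
  have hΦ : ∀ w n, Φ w n = x n + S n (w (n + 1)) := fun w n => rfl
  have hcon : ContractingWith (1 / 2) Φ := by
    refine ⟨by norm_num, LipschitzWith.of_dist_le_mul (fun w w' => ?_)⟩
    refine (BoundedContinuousFunction.dist_le (by positivity)).2 (fun n => ?_)
    rw [hΦ, hΦ, dist_add_left, dist_eq_norm, ← map_sub]
    refine (hS _ _).trans ?_
    have := BoundedContinuousFunction.dist_coe_le_dist (f := w) (g := w') (n + 1)
    rw [dist_eq_norm] at this
    push_cast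
    linarith
  let w := hcon.fixedPoint Φ
  have hw : ∀ n, w n = x n + S n (w (n + 1)) := fun n => by
    rw [← hΦ, show Φ w = w from hcon.fixedPoint_isFixedPt]
  have hw2 : ‖w‖ ≤ 2 := by
    have : ‖w‖ ≤ 1 + ‖w‖ / 2 := by
      refine (BoundedContinuousFunction.norm_le (by positivity)).2 (fun n => ?_)
      rw [hw]
      exact (norm_add_le _ _).trans (add_le_add (hp _ _)
        ((hS _ _).trans (by have := w.norm_coe_le_norm (n + 1); linarith)))
    linarith
  have hy : ∀ n, τ 0 (w 0) = hd n + τ n (w n) := by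
    intro n
    induction n with
    | zero => simp [hd]
    | succ n ih => rw [ih, hd1, hw n, map_add, hτ, add_assoc]
  obtain ⟨n, hn⟩ := exists_nat_gt (N (τ 0 (w 0)))
  have := hp' n (hd n) (w (n + 1)) ((w.norm_coe_le_norm _).trans hw2)
  rw [← hd1, ← hy (n + 1)] at this
  linarith

end lin

end Pool.Agent.P.MP_e0f0cb_an
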