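import Pool.Agent.P.MP_e0f0cb_an.Idem

set_option autoImplicit false

namespace Pool.Agent.P.MP_e0f0cb_an

open Filter Topology Finset

variable {A : Type*} [NormedRing A] [NormedAlgebra ℂ A] [CompleteSpace A]

/-- the corner `e A e` -/
def cornerSub (e : A) : NonUnitalSubalgebra ℂ A where
  carrier := {y | e * y = y ∧ y * e = y}
  add_mem' := fun {a b} ha hb => ⟨by rw [mul_add, ha.1, hb.1], by rw [add_mul, ha.2, hb.2]⟩
  zero_mem' := ⟨mul_zero e, zero_mul e⟩
  mul_mem' := fun {a b} ha hb => ⟨by rw [← mul_assoc, ha.1], by rw [mul_assoc, hb.2]⟩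
  smul_mem' := fun c a ha => ⟨by rw [mul_smul_comm, ha.1], by rw [smul_mul_assoc, ha.2]⟩

/-- the corner as a unital algebra -/
def Cor (e : A) (_ : e * e = e) : Type _ := cornerSub e

noncomputable instance (e : A) (he : e * e = e) : NormedRing (Cor e he) :=
  { (inferInstance : NonUnitalNormedRing (cornerSub e)) with
    one := ⟨e, he, he⟩
    one_mul := fun y => Subtype.ext y.2.1
    mul_one := fun y => Subtype.ext y.2.2 }

noncomputable instance (e : A) (he : e * e = e) : NormedAlgebra ℂ (Cor e he) :=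
  letI : Module ℂ (Cor e he) := (inferInstance : Module ℂ (cornerSub e))
  { (Algebra.ofModule (fun r x y => Subtype.ext (smul_mul_assoc r x.1 y.1))
      (fun r x y => Subtype.ext (mul_smul_comm r x.1 y.1)) : Algebra ℂ (Cor e he)) with
    norm_smul_le := fun r x => norm_smul_le r x.1 }

instance (e : A) (he : e * e = e) : CompleteSpace (Cor e he) := by
  have : IsClosed (cornerSub e : Set A) :=
    (isClosed_eq (f := fun y : A => e * y) (g := id) (by fun_prop) continuous_id).inter
      (isClosed_eq (f := fun y : A => y * e) (g := id) (by fun_prop) continuous_id)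
  exact this.completeSpace_coe

theorem corner_thm (D : A →ₗ[ℂ] A) (hD : ∀ a b, D (a * b) = D a * b + a * D b) (M : MX A)
    (e v : A) (he : e * e = e) (hDe : D e = 0) (hv : v ∉ M.1) (hev : e * v - v ∈ M.1)
    (hR : ∀ w, w * v ∈ M.1 → w * e ∈ Ring.jacobson A) (t : A) (ht : t ∈ cornerSub e)
    (htv : t * v ∈ M.1) : D t * v ∈ M.1 := by
  have hq : qm M v ≠ 0 := fun h => hv ((qm_eq_zero _ _).1 h)
  have hqe : qm M (e * v) = qm M v := by rw [← sub_eq_zero, ← map_sub, qm_eq_zero]; exact hev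
  have hev' : e * v ∉ M.1 := fun h => hq (by rw [← hqe, qm_eq_zero]; exact h)
  have hleft : ∀ y : Cor e he, y.1 * v ∉ M.1 → ∃ z : Cor e he, z * y = 1 := by
    intro y hy
    obtain ⟨z, hz⟩ := M.gen hy v
    have h1 : (z * y.1 - 1) * e ∈ Ring.jacobson A := hR _ (by
      have := M.1.neg_mem hz
      convert this using 1
      noncomm_ring)
    obtain ⟨U, hU⟩ := jac_unit ((Ring.jacobson A).mul_mem_left e h1)
    have c1 : Commute e (↑U : A) := by
      rw [hU]
      change _ = _
      rw [mul_add, add_mul, ← mul_assoc, he, mul_assoc, mul_assoc, he, mul_one, one_mul]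
    refine ⟨⟨e * ↑U⁻¹ * e * z * e, by simp only [← mul_assoc, he], by rw [mul_assoc, he]⟩,
      Subtype.ext ?_⟩
    change e * ↑U⁻¹ * e * z * e * y.1 = e
    have h2 : e * z * e * y.1 = U * e := by
      rw [hU, mul_assoc, y.2.1, add_mul, one_mul, mul_assoc, mul_assoc e _ e, mul_assoc _ e e, he,
        sub_mul, one_mul, mul_assoc z, y.2.2, mul_sub, he]
      abel
    calc e * ↑U⁻¹ * e * z * e * y.1 = e * ↑U⁻¹ * (e * z * e * y.1) := by simp only [mul_assoc]
      _ = e := by rw [h2, mul_assoc, ← mul_assoc (↑U⁻¹ : A)]; simp [he]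
  have hunit : ∀ y : Cor e he, y.1 * v ∉ M.1 → IsUnit y := by
    intro y hy
    obtain ⟨z, hz⟩ := hleft y hy
    have hz' : z.1 * v ∉ M.1 := fun h => by
      have h1 := hR _ h
      rw [z.2.2] at h1
      have h2 : z.1 * y.1 = e := congrArg Subtype.val hz
      have h3 : z.1 * (y.1 * v) ∈ Ring.jacobson A := Ideal.mul_mem_right _ _ h1
      rw [← mul_assoc, h2] at h3
      exact hev' (mem_jac.1 h3 M)
    obtain ⟨z', hz''⟩ := hleft z hz'
    have e2 : z' = y := by
      calc z' = z' * (z * y) := by rw [hz, mul_one]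
        _ = y := by rw [← mul_assoc, hz'', one_mul]
    exact ⟨⟨y, z, by rw [← e2, hz''], hz⟩, rfl⟩
  have : Nontrivial (Cor e he) := ⟨⟨1, 0, fun h => by
    have h1 : e = 0 := congrArg Subtype.val h
    exact hev' (by rw [h1, zero_mul]; exact M.1.zero_mem)⟩⟩
  have hex : ∀ y : Cor e he, ∃ l : ℂ, qm M (y.1 * v) = l • qm M v := by
    intro y
    obtain ⟨l, hl⟩ := spectrum.nonempty y
    refine ⟨l, ?_⟩
    by_contra hne
    refine hl (hunit _ (fun h => hne ?_))
    rw [Algebra.algebraMap_eq_smul_one] at h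
    have h1 : (l • e - y.1) * v ∈ M.1 := h
    rw [← qm_eq_zero, sub_mul, smul_mul_assoc, map_sub, map_smul, hqe, sub_eq_zero] at h1
    exact h1.symm
  choose φ₀ hφ₀ using hex
  have hinj : ∀ l l' : ℂ, l • qm M v = l' • qm M v → l = l' := fun l l' h =>
    smul_left_injective ℂ hq h
  let φ : Cor e he →ₗ[ℂ] ℂ :=
    { toFun := φ₀
      map_add' := fun x y => hinj _ _ (by
        rw [add_smul, ← hφ₀, ← hφ₀, ← hφ₀, ← map_add, ← add_mul]; rfl)
      map_smul' := fun c x => hinj _ _ (by
        rw [RingHom.id_apply, smul_eq_mul, mul_smul, ← hφ₀, ← hφ₀, ← map_smul, ← smul_mul_assoc]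
        rfl) }
  have hφ : ∀ y, qm M (y.1 * v) = φ y • qm M v := hφ₀
  let D' : Cor e he →ₗ[ℂ] Cor e he :=
    { toFun := fun y => ⟨D y.1, by
        have := hD e y.1
        rw [y.2.1, hDe, zero_mul, zero_add] at this
        exact this.symm, by
        have := hD y.1 e
        rw [y.2.2, hDe, mul_zero, add_zero] at this
        exact this.symm⟩
      map_add' := fun x y => Subtype.ext (D.map_add x.1 y.1)
      map_smul' := fun c x => Subtype.ext (D.map_smul c x.1) }
  have key := local_thm D' (fun a b => Subtype.ext (hD a.1 b.1)) φ (fun a b => hinj _ _ (by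
      have h1 : b.1 * v - φ b • v ∈ M.1 := by
        rw [← qm_eq_zero, map_sub, map_smul, hφ, sub_self]
      have h2 := (qm_eq_zero _ _).2 (M.1.mul_mem_left a.1 h1)
      rw [mul_sub, mul_smul_comm, map_sub, map_smul, sub_eq_zero, hφ a, ← mul_assoc] at h2
      rw [← hφ, mul_comm, mul_smul]
      exact h2)) (hinj _ _ (by rw [← hφ, one_smul]; exact hqe))
    ⟨‖v‖ / ‖qm M v‖, fun x => by
      have h1 := (qm_le M (x.1 * v)).trans (norm_mul_le _ _)
      rw [hφ, norm_smul] at h1
      rw [div_mul_eq_mul_div, le_div_iff₀ (norm_pos_iff.2 hq), mul_comm ‖v‖]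
      exact h1⟩
    (fun a ha => hunit a (fun h => ha (hinj _ _ (by
      rw [← hφ, zero_smul, qm_eq_zero]; exact h))))
    ⟨t, ht⟩ (hinj _ _ (by rw [← hφ, zero_smul, qm_eq_zero]; exact htv))
  have h3 := hφ (D' ⟨t, ht⟩)
  rw [key, zero_smul, qm_eq_zero] at h3
  exact h3

/-- the unital case -/
theorem unital_thm (D : A →ₗ[ℂ] A) (hD : ∀ a b, D (a * b) = D a * b + a * D b) (M : MX A)
    (x : A) (hx : ∀ a, x * a ∈ M.1) (c : A) : D x * c ∈ M.1 := by
  by_cases hall : ∀ k, Bd D M k
  · exact bounded_case hD M hall x hx c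
  push Not at hall
  by_contra hc
  obtain ⟨f, v, hv, hfv, hR⟩ := rank_one hD M hall
  obtain ⟨e, he, hef⟩ := lift_idem f (mem_jac.2 (fun N => by
    have := hR (f - 1) (by rw [sub_mul, one_mul]; exact hfv) N
    rwa [sub_mul, one_mul] at this))
  have hev : e * v - v ∈ M.1 := by
    have := M.1.add_mem (mem_jac.1 (Ideal.mul_mem_right v _ hef) M) hfv
    rwa [sub_mul, sub_add_sub_cancel] at this
  have hR' : ∀ w, w * v ∈ M.1 → w * e ∈ Ring.jacobson A := fun w hw => by
    have := (Ring.jacobson A).add_mem (mem_jac.2 (hR w hw)) ((Ring.jacobson A).mul_mem_left w hef)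
    rwa [← mul_add, add_sub_cancel] at this
  let β := D e * e - e * D e
  let D' : A →ₗ[ℂ] A := D - (LinearMap.mulLeft ℂ β - LinearMap.mulRight ℂ β)
  have hD' : ∀ y, D' y = D y - (β * y - y * β) := fun y => rfl
  have h1 : D e = D e * e + e * D e := by rw [← hD, he]
  have h2 : e * D e * e = 0 := by
    have : e * D e = e * (D e * e + e * D e) := by rw [← h1]
    rw [mul_add, ← mul_assoc, ← mul_assoc, he] at this
    exact (add_eq_right.1 this.symm)
  have hD'e : D' e = 0 := by
    rw [hD']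
    simp only [β, sub_mul, mul_sub, ← mul_assoc, h2, he]
    rw [mul_assoc (D e), he, sub_eq_zero]
    nth_rewrite 1 [h1]
    abel
  obtain ⟨r₂, hr₂⟩ := M.gen hv c
  obtain ⟨r₁, hr₁⟩ := M.gen hc v
  have hP : ∀ a b, a * x * b ∈ M.1 := fun a b => by
    rw [mul_assoc]; exact M.1.mul_mem_left _ (hx b)
  have key := corner_thm D' (fun a b => by rw [hD', hD', hD', hD]; noncomm_ring) M e v he hD'e hv
    hev hR' (e * r₁ * x * (r₂ * e)) ⟨by simp only [← mul_assoc, he], by simp only [mul_assoc, he]⟩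
    (by rw [mul_assoc]; exact hP _ _)
  apply hv
  rw [hD', hD, hD] at key
  have k1 := hP (D (e * r₁)) (r₂ * e * v)
  have k2 := hP (e * r₁) (D (r₂ * e) * v)
  have k3 := hP (β * (e * r₁)) (r₂ * e * v)
  have k4 := hP (e * r₁) (r₂ * e * β * v)
  have k5 := M.1.mul_mem_left (e * r₁ * D x * r₂) hev
  have k6 := M.1.mul_mem_left (e * r₁ * D x) hr₂
  have k7 := M.1.mul_mem_left e hr₁
  have := M.1.sub_mem (M.1.add_mem (M.1.add_mem (M.1.sub_mem (M.1.sub_mem (M.1.add_mem
    (M.1.sub_mem (M.1.sub_mem key k1) k2) k3) k4) k5) k6) k7) hev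
  convert this using 1
  generalize D (e * r₁) = p
  generalize D (r₂ * e) = p'
  generalize β = b
  noncomm_ring

end Pool.Agent.P.MP_e0f0cb_an
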