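import Pool.Agent.P.MP_e0f0cb_an.Hump

set_option autoImplicit false

namespace Pool.Agent.P.MP_e0f0cb_an

open Filter Topology Finset

variable {A : Type*} [NormedRing A] [NormedAlgebra ℂ A] [CompleteSpace A]

lemma quasinil (r : A) (h : ∀ l : ℂ, l ≠ 0 → IsUnit (algebraMap ℂ A l - r)) (ε : ℝ)
    (hε : 0 < ε) : ∀ᶠ k in atTop, ‖r ^ k‖ ≤ ε ^ k := by
  have h0 : spectralRadius ℂ r = 0 := by
    simp only [spectralRadius, ENNReal.iSup_eq_zero]
    intro l hl
    by_contra hne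
    have : l ≠ 0 := by rintro rfl; simp at hne
    exact hl (h l this)
  have h1 := spectrum.pow_norm_pow_one_div_tendsto_nhds_spectralRadius r
  rw [h0] at h1
  have h2 := h1.eventually (gt_mem_nhds (ENNReal.ofReal_pos.2 hε))
  filter_upwards [h2, eventually_ge_atTop 1] with k hk hk1
  rw [ENNReal.ofReal_lt_ofReal_iff hε] at hk
  have := pow_le_pow_left₀ (Real.rpow_nonneg (norm_nonneg _) _) hk.le k
  rwa [one_div, Real.rpow_inv_natCast_pow (norm_nonneg _) (by omega)] at this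

lemma quasinil_half (r : A) (h : ∀ l : ℂ, l ≠ 0 → IsUnit (algebraMap ℂ A l - r)) (C : ℝ)
    (hC : 0 ≤ C) : ∃ k, C ^ k * ‖r ^ k‖ ≤ 1 / 2 := by
  have hp : (0 : ℝ) < (2 * (C + 1))⁻¹ := by positivity
  obtain ⟨k, hk, hk1⟩ := ((quasinil r h _ hp).and (eventually_ge_atTop 1)).exists
  refine ⟨k, (mul_le_mul_of_nonneg_left hk (pow_nonneg hC k)).trans ?_⟩
  rw [← mul_pow]
  have h1 : C * (2 * (C + 1))⁻¹ ≤ 1 / 2 := by
    rw [mul_inv_le_iff₀ (by positivity)]; linarith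
  calc (C * (2 * (C + 1))⁻¹) ^ k ≤ (1 / 2) ^ k := pow_le_pow_left₀ (by positivity) h1 k
    _ ≤ (1 / 2) ^ 1 := pow_le_pow_of_le_one (by norm_num) (by norm_num) hk1
    _ = 1 / 2 := pow_one _

/-- the row `z 0, ..., z (n-1)` is bounded below -/
def BB (n : ℕ) (z : ℕ → A) : Prop := ∃ C : ℝ, ∀ η : A, ‖η‖ ≤ C * ∑ i ∈ range n, ‖η * z i‖

/-- no finite row from `S` is bounded below -/
def TDZ (S : Submodule ℂ A) : Prop := ∀ n (z : ℕ → A), (∀ i < n, z i ∈ S) → ¬ BB n z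

/-- no `t`-torsion modulo bounded below rows -/
def HH (t : A) : Prop := ∀ n (z c : ℕ → A) (b : A), BB n z → (∀ i < n, t * c i = b * z i) →
  ∃ b', ∀ i < n, c i = b' * z i

omit [NormedAlgebra ℂ A] [CompleteSpace A] in
lemma joint (t : A) (hq : ∀ C : ℝ, 0 ≤ C → ∃ k, C ^ k * ‖t ^ k‖ ≤ 1 / 2) (n : ℕ) (z : ℕ → A)
    (C : ℝ) (hC : 0 ≤ C) (h : ∀ η : A, ‖η‖ ≤ C * (‖t * η‖ + ∑ i ∈ range n, ‖η * z i‖)) :
    BB n z := by
  have key : ∀ k, ∃ B : ℝ, ∀ η : A,
      ‖η‖ ≤ C ^ k * ‖t ^ k * η‖ + B * ∑ i ∈ range n, ‖η * z i‖ := by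
    intro k
    induction k with
    | zero => exact ⟨0, fun η => by simp⟩
    | succ k ih =>
      obtain ⟨B, hB⟩ := ih
      refine ⟨B + C ^ k * C * ‖t ^ k‖, fun η => (hB η).trans ?_⟩
      have h1 := h (t ^ k * η)
      rw [← mul_assoc, ← pow_succ'] at h1
      have h2 : ∑ i ∈ range n, ‖t ^ k * η * z i‖ ≤ ‖t ^ k‖ * ∑ i ∈ range n, ‖η * z i‖ := by
        rw [mul_sum]
        exact sum_le_sum (fun i _ => by rw [mul_assoc]; exact norm_mul_le _ _)
      have h3 : ‖t ^ k * η‖ ≤ C * (‖t ^ (k + 1) * η‖ + ‖t ^ k‖ * ∑ i ∈ range n, ‖η * z i‖) :=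
        h1.trans (mul_le_mul_of_nonneg_left (by linarith) hC)
      have h4 := mul_le_mul_of_nonneg_left h3 (pow_nonneg hC k)
      rw [pow_succ C k]
      linarith
  obtain ⟨k, hk⟩ := hq C hC
  obtain ⟨B, hB⟩ := key k
  refine ⟨2 * B, fun η => ?_⟩
  have h1 := hB η
  have h2 : C ^ k * ‖t ^ k * η‖ ≤ 1 / 2 * ‖η‖ :=
    (mul_le_mul_of_nonneg_left (norm_mul_le _ _) (pow_nonneg hC k)).trans (by
      rw [← mul_assoc]; exact mul_le_mul_of_nonneg_right hk (norm_nonneg _))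
  linarith

omit [CompleteSpace A] in
lemma tdz_range (t : A) (hq : ∀ C : ℝ, 0 ≤ C → ∃ k, C ^ k * ‖t ^ k‖ ≤ 1 / 2) (η₀ : A)
    (h0 : η₀ ≠ 0) : TDZ (LinearMap.range (LinearMap.mulLeft ℂ t)) := by
  rintro n z hz ⟨C, hC⟩
  have hw : ∀ i, ∃ w, i < n → z i = t * w := fun i => by
    by_cases hi : i < n
    · obtain ⟨w, hw⟩ := hz i hi
      exact ⟨w, fun _ => hw.symm⟩
    · exact ⟨0, fun h => absurd h hi⟩
  choose w hw using hw
  set C' := |C| * ∑ i ∈ range n, ‖w i‖ with hC'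
  have hC0 : 0 ≤ C' := by positivity
  have h1 : ∀ η : A, ‖η‖ ≤ C' * ‖η * t‖ := by
    intro η
    refine (hC η).trans ((mul_le_mul_of_nonneg_right (le_abs_self C) (by positivity)).trans ?_)
    rw [hC', mul_assoc, sum_mul]
    refine mul_le_mul_of_nonneg_left (sum_le_sum (fun i hi => ?_)) (abs_nonneg C)
    rw [hw i (mem_range.1 hi), ← mul_assoc, mul_comm ‖w i‖]
    exact norm_mul_le _ _
  have h2 : ∀ k, ‖η₀‖ ≤ C' ^ k * ‖η₀ * t ^ k‖ := by
    intro k
    induction k with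
    | zero => simp
    | succ k ih =>
      refine ih.trans ?_
      rw [pow_succ C', mul_assoc, pow_succ t, ← mul_assoc η₀]
      exact mul_le_mul_of_nonneg_left (h1 _) (pow_nonneg hC0 k)
  obtain ⟨k, hk⟩ := hq C' hC0
  have h3 := (h2 k).trans (mul_le_mul_of_nonneg_left (norm_mul_le _ _) (pow_nonneg hC0 k))
  have h4 : 0 < ‖η₀‖ := norm_pos_iff.2 h0
  nlinarith

omit [NormedAlgebra ℂ A] [CompleteSpace A] in
lemma HH.inj {t : A} (h : HH t) (c : A) (hc : t * c = 0) : c = 0 := by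
  obtain ⟨b, hb⟩ := h 2 (fun i => if i = 0 then 1 else 0) (fun i => if i = 0 then 0 else c) 0
    ⟨1, fun η => by simp [sum_range_succ]⟩ (fun i _ => by split_ifs <;> simp [hc])
  simpa using hb 1 (by norm_num)

lemma device (t : A) (hq : ∀ C : ℝ, 0 ≤ C → ∃ k, C ^ k * ‖t ^ k‖ ≤ 1 / 2)
    (hinj : ∀ c, t * c = 0 → c = 0) (S : Submodule ℂ A) (hS : TDZ S) (w : ℕ → A)
    (hw : ∀ n, w n ∈ S) (hw0 : Tendsto w atTop (𝓝 0)) :
    ∃ a : A, (∀ c, a ≠ t * c) ∧ ∃ (c : ℕ → A) (M : ℝ), (∀ n, ‖c n‖ ≤ M) ∧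
      ∀ n, a * w n = t * c n := by
  by_contra hne
  push Not at hne
  obtain ⟨M, hM⟩ : ∃ M, ∀ n, ‖w n‖ ≤ M := by
    obtain ⟨M, hM⟩ := (Metric.isBounded_range_of_tendsto w hw0).exists_norm_le
    exact ⟨M, fun n => hM _ ⟨n, rfl⟩⟩
  let V : Submodule ℂ (A × BoundedContinuousFunction ℕ A) :=
    { carrier := {v | ∀ n, v.1 * w n = t * v.2 n}
      add_mem' := fun {a b} ha hb n => by simp [add_mul, mul_add, ha n, hb n]
      zero_mem' := fun n => by simp
      smul_mem' := fun c a ha n => by simp [ha n] }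
  have hV : IsClosed (V : Set (A × BoundedContinuousFunction ℕ A)) := by
    have : (V : Set (A × BoundedContinuousFunction ℕ A)) = ⋂ n, {v | v.1 * w n = t * v.2 n} := by
      ext v; simp [V]
    rw [this]
    exact isClosed_iInter (fun n => isClosed_eq (by fun_prop) (by fun_prop))
  have : CompleteSpace V := hV.completeSpace_coe
  let W : A → BoundedContinuousFunction ℕ A := fun η =>
    BoundedContinuousFunction.ofNormedAddCommGroupDiscrete (fun n => η * w n) (‖η‖ * M)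
      (fun n => (norm_mul_le _ _).trans (mul_le_mul_of_nonneg_left (hM n) (norm_nonneg _)))
  have hW : ∀ η n, W η n = η * w n := fun η n => rfl
  have hM0 : 0 ≤ M := (norm_nonneg _).trans (hM 0)
  let Φ₀ : A →ₗ[ℂ] V :=
    { toFun := fun η => ⟨(t * η, W η), fun n => by simp [hW, mul_assoc]⟩
      map_add' := fun x y => by
        apply Subtype.ext; refine Prod.ext (mul_add _ _ _) ?_
        ext n; simp [hW, add_mul]
      map_smul' := fun c x => by
        apply Subtype.ext; refine Prod.ext (by simp) ?_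
        ext n; simp [hW] }
  have hΦn : ∀ η, ‖Φ₀ η‖ ≤ ‖t * η‖ + ‖W η‖ := fun η => by
    change ‖(t * η, W η)‖ ≤ _
    rw [Prod.norm_def]
    exact max_le (by simp) (by simp)
  let Φ : A →L[ℂ] V := Φ₀.mkContinuous (‖t‖ + M) (fun η => (hΦn η).trans (by
    have h1 : ‖W η‖ ≤ ‖η‖ * M := (BoundedContinuousFunction.norm_le (by positivity)).2
      (fun n => (norm_mul_le _ _).trans (mul_le_mul_of_nonneg_left (hM n) (norm_nonneg _)))
    have h2 := norm_mul_le t η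
    linarith))
  have hsurj : Function.Surjective Φ := by
    rintro ⟨⟨a, c⟩, hv⟩
    obtain ⟨η, hη⟩ : ∃ η, a = t * η := by
      by_contra h
      push Not at h
      obtain ⟨n, hn⟩ := hne a h c ‖c‖ c.norm_coe_le_norm
      exact hn (hv n)
    refine ⟨η, Subtype.ext (Prod.ext hη.symm ?_)⟩
    ext n
    change η * w n = c n
    rw [← sub_eq_zero]
    apply hinj
    have : a * w n = t * c n := hv n
    rw [mul_sub, ← mul_assoc, ← hη, this, sub_self]
  obtain ⟨C, hC, hC'⟩ := Φ.exists_preimage_norm_le hsurj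
  have hp : (0 : ℝ) < (2 * C)⁻¹ := by positivity
  obtain ⟨n₀, hn₀⟩ := eventually_atTop.1 (hw0.norm.eventually (gt_mem_nhds
    (show ‖(0 : A)‖ < (2 * C)⁻¹ by rw [norm_zero]; exact hp)))
  refine hS n₀ w (fun i _ => hw i) (joint t hq n₀ w (2 * C) (by positivity) (fun η => ?_))
  obtain ⟨η', h1, h2⟩ := hC' (Φ η)
  have h3 : η' = η := by
    have : t * η' = t * η := congrArg (fun v : V => v.1.1) h1
    rw [← sub_eq_zero]
    apply hinj
    rw [mul_sub, this, sub_self]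
  subst h3
  have h4 : ‖W η'‖ ≤ ∑ i ∈ range n₀, ‖η' * w i‖ + ‖η'‖ * (2 * C)⁻¹ := by
    refine (BoundedContinuousFunction.norm_le (by positivity)).2 (fun n => ?_)
    rw [hW]
    by_cases hn : n < n₀
    · have := single_le_sum (f := fun i => ‖η' * w i‖) (fun i _ => norm_nonneg _)
        (mem_range.2 hn)
      have h5 : 0 ≤ ‖η'‖ * (2 * C)⁻¹ := by positivity
      linarith
    · have h5 := (norm_mul_le η' (w n)).trans
        (mul_le_mul_of_nonneg_left (hn₀ n (by omega)).le (norm_nonneg _))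
      have h6 : 0 ≤ ∑ i ∈ range n₀, ‖η' * w i‖ := by positivity
      linarith
  have h5 : ‖η'‖ ≤ C * (‖t * η'‖ + (∑ i ∈ range n₀, ‖η' * w i‖ + ‖η'‖ * (2 * C)⁻¹)) :=
    h2.trans (mul_le_mul_of_nonneg_left ((hΦn η').trans (by linarith)) hC.le)
  have h6 : C * (‖η'‖ * (2 * C)⁻¹) = ‖η'‖ / 2 := by field_simp
  linarith

end Pool.Agent.P.MP_e0f0cb_an
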