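import Pool.Agent.P.MP_e0f0cb_an.Corner

set_option autoImplicit false

namespace Pool.Agent.P.MP_e0f0cb_an

open WithLp

variable {A : Type*} [NonUnitalNormedRing A] [NormedSpace ℂ A] [IsScalarTower ℂ A A]
  [SMulCommClass ℂ A A]

/-- the action of the unitization on the algebra -/
def act (w : WithLp 1 (Unitization ℂ A)) (a : A) : A := (ofLp w).fst • a + (ofLp w).snd * a

/-- the embedding in the unitization -/
def emb (a : A) : WithLp 1 (Unitization ℂ A) := toLp 1 (a : Unitization ℂ A)

lemma act_mul (w w' : WithLp 1 (Unitization ℂ A)) (a : A) : act (w * w') a = act w (act w' a) := by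
  simp only [act, unitization_mul, Unitization.fst_mul, Unitization.snd_mul, add_mul, mul_add,
    smul_add, smul_mul_assoc, mul_smul_comm, mul_smul, mul_assoc]
  abel

lemma act_add (w w' : WithLp 1 (Unitization ℂ A)) (a : A) :
    act (w + w') a = act w a + act w' a := by
  simp only [act, ofLp_add, Unitization.fst_add, Unitization.snd_add, add_mul, add_smul]
  abel

omit [IsScalarTower ℂ A A] [SMulCommClass ℂ A A] in
lemma act_emb (b a : A) : act (emb b) a = b * a := by
  simp [act, emb]

lemma act_one (a : A) : act (1 : WithLp 1 (Unitization ℂ A)) a = a := by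
  have h : ofLp (1 : WithLp 1 (Unitization ℂ A)) = 1 := rfl
  simp [act, h]

omit [SMulCommClass ℂ A A] in
lemma act_smul (c : ℂ) (w : WithLp 1 (Unitization ℂ A)) (a : A) : act (c • w) a = c • act w a := by
  simp only [act, ofLp_smul, Unitization.fst_smul, Unitization.snd_smul, smul_add, smul_mul_assoc,
    smul_eq_mul, mul_smul]

lemma act_zero (a : A) : act (0 : WithLp 1 (Unitization ℂ A)) a = 0 := by
  simp [act]

/-- the derivation extended to the unitization -/
def extD (D : A →ₗ[ℂ] A) : WithLp 1 (Unitization ℂ A) →ₗ[ℂ] WithLp 1 (Unitization ℂ A) where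
  toFun w := emb (D (ofLp w).snd)
  map_add' x y := by simp [emb]
  map_smul' c x := by simp [emb]

lemma extD_mul (D : A →ₗ[ℂ] A) (hD : ∀ a b : A, D (a * b) = D a * b + a * D b)
    (a b : WithLp 1 (Unitization ℂ A)) : extD D (a * b) = extD D a * b + a * extD D b := by
  apply ofLp_injective
  change ((D (ofLp a * ofLp b).snd : A) : Unitization ℂ A) =
    ((D (ofLp a).snd : A) : Unitization ℂ A) * ofLp b +
      ofLp a * ((D (ofLp b).snd : A) : Unitization ℂ A)
  ext
  · simp
  · simp only [Unitization.snd_inr, Unitization.snd_mul, Unitization.snd_add, map_add, map_smul,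
      hD, Unitization.fst_inr, zero_smul, zero_add, add_zero]
    abel

theorem final_thm [CompleteSpace A] (D : A →ₗ[ℂ] A)
    (hD : ∀ a b : A, D (a * b) = D a * b + a * D b) (L : Submodule ℂ A)
    (hL : ∀ a x : A, x ∈ L → a * x ∈ L) (u : A) (hu : ∀ a : A, a - a * u ∈ L) (hne : L ≠ ⊤)
    (hmax : ∀ L' : Submodule ℂ A, (∀ a x : A, x ∈ L' → a * x ∈ L') → L ≤ L' → L' = L ∨ L' = ⊤)
    (x : A) (hx : ∀ a : A, x * a ∈ L) (a : A) : D x * a ∈ L := by
  have hact : ∀ w y, y ∈ L → act w y ∈ L := fun w y hy =>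
    L.add_mem (L.smul_mem _ hy) (hL _ _ hy)
  have huL : u ∉ L := fun h => hne (eq_top_iff.2 (fun b _ => by
    have := L.add_mem (hu b) (hL b u h)
    rwa [sub_add_cancel] at this))
  let I : Ideal (WithLp 1 (Unitization ℂ A)) :=
    { carrier := {w | act w u ∈ L}
      add_mem' := fun {w w'} h h' => by
        change act (w + w') u ∈ L
        rw [act_add]; exact L.add_mem h h'
      zero_mem' := by
        change act 0 u ∈ L
        rw [act_zero]; exact L.zero_mem
      smul_mem' := fun c w h => by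
        change act (c * w) u ∈ L
        rw [act_mul]; exact hact _ _ h }
  have hI : ∀ w, w ∈ I ↔ act w u ∈ L := fun w => Iff.rfl
  have hM : I.IsMaximal := by
    rw [Ideal.isMaximal_iff]
    refine ⟨by rw [hI, act_one]; exact huL, fun J w hIJ hw hwJ => ?_⟩
    let L' : Submodule ℂ A :=
      { carrier := {y | ∃ w', y - act (w' * w) u ∈ L}
        add_mem' := fun {y y'} ⟨w₁, h₁⟩ ⟨w₂, h₂⟩ => ⟨w₁ + w₂, by
          have := L.add_mem h₁ h₂
          rwa [add_mul, act_add, add_sub_add_comm]⟩
        zero_mem' := ⟨0, by rw [zero_mul, act_zero, sub_zero]; exact L.zero_mem⟩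
        smul_mem' := fun c y ⟨w₁, h₁⟩ => ⟨c • w₁, by
          have := L.smul_mem c h₁
          rwa [smul_mul_assoc, act_smul, ← smul_sub]⟩ }
    rcases hmax L' (fun b y ⟨w₁, h₁⟩ => ⟨emb b * w₁, by
        have := hL b _ h₁
        rwa [mul_assoc, act_mul, act_emb, ← mul_sub]⟩)
      (fun y hy => ⟨0, by rwa [zero_mul, act_zero, sub_zero]⟩) with h | h
    · refine absurd ((hI w).2 ?_) hw
      rw [← h]
      exact ⟨1, by rw [one_mul, sub_self]; exact L.zero_mem⟩
    · obtain ⟨w', hw'⟩ : u ∈ L' := by rw [h]; trivial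
      have h1 : 1 + (-1 : ℂ) • (w' * w) ∈ I := by
        rwa [hI, act_add, act_one, act_smul, neg_smul, one_smul, ← sub_eq_add_neg]
      have h2 := J.add_mem (hIJ h1) (J.mul_mem_left w' hwJ)
      rwa [neg_smul, one_smul, neg_add_cancel_right] at h2
  have key := unital_thm (extD D) (extD_mul D hD) ⟨I, hM⟩ (emb x) (fun w => by
    change act (emb x * w) u ∈ L
    rw [act_mul, act_emb]; exact hx _) (emb a)
  change act (emb (D x) * emb a) u ∈ L at key
  rw [act_mul, act_emb, act_emb, ← mul_assoc] at key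
  have := L.add_mem (hu (D x * a)) key
  rwa [sub_add_cancel] at this

end Pool.Agent.P.MP_e0f0cb_an
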