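import Pool.Agent.P.MP_e0f0cb_an.PLemma

set_option autoImplicit false

namespace Pool.Agent.P.MP_e0f0cb_an

open Filter Topology Finset

section alg
variable {A : Type*} [NormedRing A] [NormedAlgebra ℂ A] {D : A →ₗ[ℂ] A} {t : A}

lemma Iord_mono {j k : ℕ} (h : j ≤ k) {y : A} (hy : y ∈ Iord D t k) : y ∈ Iord D t j :=
  fun i hi => hy i (by omega)

lemma Iord_succ {j : ℕ} {y : A} : y ∈ Iord D t (j + 1) ↔ (∃ w, y = t * w) ∧ D y ∈ Iord D t j := by
  constructor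
  · intro h
    refine ⟨by simpa using h 0 (by omega), fun i hi => ?_⟩
    rw [← pow_succ_apply']
    exact h _ (by omega)
  · rintro ⟨h1, h2⟩ i hi
    rcases i with _ | i
    · simpa using h1
    · rw [pow_succ_apply']; exact h2 i (by omega)

lemma Iord_pow {j k : ℕ} {y : A} (hy : y ∈ Iord D t (j + k)) : (D ^ k) y ∈ Iord D t j := by
  intro i hi
  rw [← pow_add_apply]
  exact hy _ (by omega)

lemma Iord_mul (hD : ∀ a b, D (a * b) = D a * b + a * D b) (j : ℕ) :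
    ∀ y x : A, y ∈ Iord D t j → y * x ∈ Iord D t j := by
  induction j with
  | zero => intro y x _ i hi; exact absurd hi (Nat.not_lt_zero i)
  | succ j ih =>
    intro y x hy
    obtain ⟨⟨w, hw⟩, h2⟩ := Iord_succ.1 hy
    refine Iord_succ.2 ⟨⟨w * x, by rw [hw, mul_assoc]⟩, ?_⟩
    rw [hD]
    exact Submodule.add_mem _ (ih _ _ h2) (ih _ _ (Iord_mono (by omega) hy))

lemma Iord_comm (hD : ∀ a b, D (a * b) = D a * b + a * D b) (a x : A) (k : ℕ) :
    ∀ j, a ∈ Iord D t (j + k) → (D ^ k) (a * x) - (D ^ k) a * x ∈ Iord D t (j + 1) := by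
  induction k with
  | zero => intro j _; simp
  | succ k ih =>
    intro j ha
    have ha' : a ∈ Iord D t (j + 1 + k) := Iord_mono (by omega) ha
    have h1 := (Iord_succ.1 (ih (j + 1) ha')).2
    have h2 := Iord_mul hD _ _ (D x) (Iord_pow ha')
    have := Submodule.add_mem _ h1 h2
    rw [map_sub, hD] at this
    rw [pow_succ_apply, pow_succ_apply]
    convert this using 1
    abel

variable {φ : A →ₗ[ℂ] ℂ}

lemma Iord_phi (hφ : ∀ a b, φ (a * b) = φ a * φ b) (ht : φ t = 0) {j : ℕ} {y : A}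
    (hy : y ∈ Iord D t j) (i : ℕ) (hi : i < j) : φ ((D ^ i) y) = 0 := by
  obtain ⟨w, hw⟩ := hy i hi
  rw [hw, hφ, ht, zero_mul]

lemma lead (hD : ∀ a b, D (a * b) = D a * b + a * D b) (hφ : ∀ a b, φ (a * b) = φ a * φ b)
    (m : ℕ) (hψ : ∀ l < m, Bdd (fun x => φ ((D ^ l) x))) (a : A) (ρ : ℕ)
    (ha : ∀ i < ρ, φ ((D ^ i) a) = 0) :
    Bdd (fun x => φ ((D ^ (ρ + m)) (a * x)) -
      ((ρ + m).choose ρ : ℂ) * φ ((D ^ ρ) a) * φ ((D ^ m) x)) := by
  have hρ : ρ ∈ range (ρ + m + 1) := mem_range.2 (by omega)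
  have : ∀ x, φ ((D ^ (ρ + m)) (a * x)) - ((ρ + m).choose ρ : ℂ) * φ ((D ^ ρ) a) * φ ((D ^ m) x) =
      ∑ i ∈ (range (ρ + m + 1)).erase ρ,
        (((ρ + m).choose i : ℂ) * φ ((D ^ i) a)) • φ ((D ^ (ρ + m - i)) x) := by
    intro x
    rw [leibniz D hD, map_sum, ← add_sum_erase _ _ hρ]
    simp only [map_nsmul, hφ]
    simp only [Nat.add_sub_cancel_left, nsmul_eq_mul, smul_eq_mul, mul_assoc]
    abel
  simp only [this]
  refine Bdd.sum _ (fun i x => (((ρ + m).choose i : ℂ) * φ ((D ^ i) a)) •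
    φ ((D ^ (ρ + m - i)) x)) (fun i hi => ?_)
  obtain ⟨h1, h2⟩ := mem_erase.1 hi
  have h3 : i < ρ + m + 1 := by simpa using h2
  rcases lt_or_gt_of_ne h1 with h | h
  · exact Bdd.zero (fun x => by simp [ha i h])
  · exact (hψ _ (by omega)).smul _

lemma next_elt (hD : ∀ a b, D (a * b) = D a * b + a * D b) (hφ : ∀ a b, φ (a * b) = φ a * φ b)
    (hloc : ∀ a, φ a ≠ 0 → IsUnit a) (ht : φ t = 0) (hu : φ (D t) ≠ 0) (j : ℕ) (a : A)
    (ha : a ∈ Iord D t j) (ha' : φ ((D ^ j) a) ≠ 0) :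
    ∃ g, a * g ∈ Iord D t (j + 1) ∧ φ ((D ^ (j + 1)) (a * g)) ≠ 0 := by
  obtain ⟨U, hU⟩ := hloc _ ha'
  have hg : (D ^ j) a * (↑U⁻¹ * t) = t := by rw [← hU, ← mul_assoc]; simp
  have hg0 : φ (↑U⁻¹ * t) = 0 := by rw [hφ, ht, mul_zero]
  refine ⟨↑U⁻¹ * t, fun i hi => ?_, ?_⟩
  · rcases Nat.lt_succ_iff_lt_or_eq.1 hi with h | h
    · exact Iord_mul hD j _ _ ha i h
    · subst h
      obtain ⟨w, hw⟩ := (Iord_succ.1 (Iord_comm hD a (↑U⁻¹ * t) i 0 (by simpa using ha))).1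
      rw [hg, sub_eq_iff_eq_add] at hw
      exact ⟨w + 1, by rw [hw, mul_add, mul_one]⟩
  · have h1 : φ (D t) = φ ((D ^ j) a) * φ (D (↑U⁻¹ * t)) := by
      conv_lhs => rw [← hg, hD, map_add, hφ, hφ _ (D _), hg0, mul_zero, zero_add]
    rw [leibniz D hD, sum_range_succ, sum_range_succ, map_add, map_add, map_sum, sum_eq_zero]
    · rw [map_nsmul, map_nsmul, hφ, hφ, Nat.sub_self, pow_zero, Module.End.one_apply, hg0,
        mul_zero, smul_zero, add_zero, zero_add, Nat.add_sub_cancel_left, pow_one, ← h1,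
        Nat.choose_succ_self_right, nsmul_eq_mul]
      exact mul_ne_zero (Nat.cast_ne_zero.2 (Nat.succ_ne_zero j)) hu
    · intro i hi
      rw [map_nsmul, hφ, Iord_phi hφ ht ha i (by simpa using hi), zero_mul, smul_zero]

lemma next_elts (hD : ∀ a b, D (a * b) = D a * b + a * D b) (hφ : ∀ a b, φ (a * b) = φ a * φ b)
    (hloc : ∀ a, φ a ≠ 0 → IsUnit a) (ht : φ t = 0) (hu : φ (D t) ≠ 0) (j : ℕ) (a : A)
    (ha : a ∈ Iord D t j) (ha' : φ ((D ^ j) a) ≠ 0) (k : ℕ) :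
    ∃ g, ‖g‖ ≤ 1 / 2 ∧ a * g ∈ Iord D t (j + k) ∧ φ ((D ^ (j + k)) (a * g)) ≠ 0 := by
  have : ∃ g, a * g ∈ Iord D t (j + k) ∧ φ ((D ^ (j + k)) (a * g)) ≠ 0 := by
    induction k with
    | zero => exact ⟨1, by simpa using ha, by simpa using ha'⟩
    | succ k ih =>
      obtain ⟨g, h1, h2⟩ := ih
      obtain ⟨g', h3, h4⟩ := next_elt hD hφ hloc ht hu _ _ h1 h2
      exact ⟨g * g', by rwa [← mul_assoc], by rwa [← mul_assoc]⟩
  obtain ⟨g, h1, h2⟩ := this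
  have hp : (0 : ℝ) < (2 * (‖g‖ + 1))⁻¹ := by positivity
  refine ⟨(((2 * (‖g‖ + 1))⁻¹ : ℝ) : ℂ) • g, ?_, ?_, ?_⟩
  · rw [norm_smul, Complex.norm_real, Real.norm_of_nonneg hp.le, inv_mul_le_iff₀ (by positivity)]
    linarith [norm_nonneg g]
  · rw [mul_smul_comm]; exact Submodule.smul_mem _ _ h1
  · rw [mul_smul_comm, map_smul, map_smul, smul_eq_mul]
    exact mul_ne_zero (Complex.ofReal_ne_zero.2 hp.ne') h2

end alg

variable {A : Type*} [NormedRing A] [NormedAlgebra ℂ A] [CompleteSpace A]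

theorem hump_local (D : A →ₗ[ℂ] A) (hD : ∀ a b, D (a * b) = D a * b + a * D b) (φ : A →ₗ[ℂ] ℂ)
    (hφ : ∀ a b, φ (a * b) = φ a * φ b) (hloc : ∀ a, φ a ≠ 0 → IsUnit a) (t : A) (ht : φ t = 0)
    (hu : φ (D t) ≠ 0) (m : ℕ) (hm : 1 ≤ m) (hψ : ∀ l < m, Bdd (fun x => φ ((D ^ l) x)))
    (hψm : ¬ Bdd (fun x => φ ((D ^ m) x)))
    (hC : ∀ j r, r < j + m → ∃ C : ℝ, 0 ≤ C ∧ ∀ y ∈ Iord D t j, ‖φ ((D ^ r) y)‖ ≤ C * ‖y‖) :
    False := by
  let Pr : ℕ → A → Prop := fun n a =>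
    a ∈ Iord D t (n * (m + 1) + m) ∧ φ ((D ^ (n * (m + 1) + m)) a) ≠ 0
  have h0 : ∃ a, Pr 0 a := by
    obtain ⟨g, _, h1, h2⟩ := next_elts hD hφ hloc ht hu 0 (D t)
      (fun i hi => absurd hi (Nat.not_lt_zero i)) (by simpa using hu) m
    exact ⟨D t * g, by simpa using h1, by simpa using h2⟩
  have h1 : ∀ n a, Pr n a → ∃ g, ‖g‖ ≤ 1 / 2 ∧ Pr (n + 1) (a * g) := by
    intro n a ha
    obtain ⟨g, h1, h2, h3⟩ := next_elts hD hφ hloc ht hu _ a ha.1 ha.2 (m + 1)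
    have e : (n + 1) * (m + 1) + m = n * (m + 1) + m + (m + 1) := by ring
    exact ⟨g, h1, by rw [e]; exact h2, by rw [e]; exact h3⟩
  choose g hg hg' using h1
  let u : ∀ n : ℕ, {a // Pr n a} := fun n =>
    Nat.rec (motive := fun n => {a // Pr n a}) ⟨h0.choose, h0.choose_spec⟩
      (fun n a => ⟨a.1 * g n a.1 a.2, hg' n a.1 a.2⟩) n
  have hu1 : ∀ n, (u (n + 1)).1 = (u n).1 * g n (u n).1 (u n).2 := fun n => rfl
  refine gliding (fun n => ContinuousLinearMap.mul ℂ A (g n (u n).1 (u n).2))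
    (fun n => ContinuousLinearMap.mul ℂ A (u n).1) (fun n x => ?_) (fun n x => ?_)
    (fun y => ‖(D ^ m) y‖) (fun n hd => ?_)
  · refine (norm_mul_le _ _).trans ?_
    have := mul_le_mul_of_nonneg_right (hg n (u n).1 (u n).2) (norm_nonneg x)
    linarith
  · simp only [ContinuousLinearMap.mul_apply', hu1, mul_assoc]
  · simp only [ContinuousLinearMap.mul_apply']
    obtain ⟨a, ha1, ha2⟩ := u n
    obtain ⟨a', hb1, _⟩ := u (n + 1)
    simp only
    generalize hj : n * (m + 1) = j at ha1 ha2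
    have hb : a' ∈ Iord D t (j + m + 1 + m) := Iord_mono (by rw [← hj]; nlinarith) hb1
    obtain ⟨C, hC0, hC1⟩ := hC (j + 1) (j + m) (by omega)
    have l1 := lead hD hφ m hψ a (j + m) (Iord_phi hφ ht ha1)
    have l2 := lead hD hφ m hψ ((D ^ m) a) j (Iord_phi hφ ht (Iord_pow ha1))
    obtain ⟨C', hC'0, hC'⟩ := (l1.sub l2).nonneg
    set κ : ℂ := (((j + m + m).choose (j + m) : ℂ) - ((j + m).choose j : ℂ)) * φ ((D ^ (j + m)) a)
      with hκ
    have hκ0 : κ ≠ 0 := by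
      refine mul_ne_zero (sub_ne_zero.2 ?_) ha2
      rw [Ne, Nat.cast_inj, Nat.choose_symm_add, Nat.choose_symm_add]
      have e1 : (j + m).choose m < (j + m + 1).choose m := by
        obtain ⟨m', rfl⟩ : ∃ m', m = m' + 1 := ⟨m - 1, by omega⟩
        rw [Nat.choose_succ_succ' (j + (m' + 1)) m']
        have := Nat.choose_pos (show m' ≤ j + (m' + 1) by omega)
        omega
      have e2 : (j + m + 1).choose m ≤ (j + m + m).choose m := Nat.choose_le_choose m (by omega)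
      omega
    have hκp : 0 < ‖κ‖ := norm_pos_iff.2 hκ0
    obtain ⟨x, hx1, hx2⟩ := exists_big (φ ∘ₗ D ^ m) hψm
      ((C * (n + ‖(D ^ m) hd‖ + ‖(D ^ m) a‖) + C') / ‖κ‖)
    refine ⟨x, hx1, fun w _ => ?_⟩
    by_contra hle
    push Not at hle
    have p1 := Iord_comm hD a x m j ha1
    have p2 : (D ^ m) (a' * w) ∈ Iord D t (j + m + 1) := Iord_pow (Iord_mul hD _ _ w hb)
    have p3 := hC1 _ (Submodule.add_mem _ p1 (Iord_mono (by omega) p2))
    rw [map_add, map_add, Iord_phi hφ ht p2 _ (by omega), add_zero, map_sub, map_sub,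
      ← pow_add_apply] at p3
    have p4 : ‖(D ^ m) (a * x) - (D ^ m) a * x + (D ^ m) (a' * w)‖ ≤
        n + ‖(D ^ m) hd‖ + ‖(D ^ m) a‖ := by
      have e : (D ^ m) (a * x) - (D ^ m) a * x + (D ^ m) (a' * w) =
          (D ^ m) (hd + a * x + a' * w) - (D ^ m) hd - (D ^ m) a * x := by
        rw [map_add, map_add]; abel
      rw [e]
      refine (norm_sub_le _ _).trans (add_le_add ((norm_sub_le _ _).trans (by linarith)) ?_)
      exact (norm_mul_le _ _).trans (mul_le_of_le_one_right (norm_nonneg _) hx1)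
    have p5 := hC' x
    rw [← pow_add_apply] at p5
    have p6 : κ * φ ((D ^ m) x) = (φ ((D ^ (j + m + m)) (a * x)) -
        φ ((D ^ (j + m)) ((D ^ m) a * x))) - (φ ((D ^ (j + m + m)) (a * x)) -
        ((j + m + m).choose (j + m) : ℂ) * φ ((D ^ (j + m)) a) * φ ((D ^ m) x) -
        (φ ((D ^ (j + m)) ((D ^ m) a * x)) -
        ((j + m).choose j : ℂ) * φ ((D ^ (j + m)) a) * φ ((D ^ m) x))) := by
      rw [hκ]; ring
    have p7 : ‖κ‖ * ‖φ ((D ^ m) x)‖ ≤ C * (n + ‖(D ^ m) hd‖ + ‖(D ^ m) a‖) + C' := by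
      rw [← norm_mul, p6]
      refine (norm_sub_le _ _).trans (add_le_add (p3.trans (mul_le_mul_of_nonneg_left p4 hC0))
        (p5.trans (mul_le_of_le_one_right hC'0 hx1)))
    rw [div_lt_iff₀ hκp, mul_comm] at hx2
    exact absurd p7 (not_le.2 (by simpa [mul_comm] using hx2))

end Pool.Agent.P.MP_e0f0cb_an
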