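import Pool.Agent.P.MP_e0f0cb_an.Red

set_option autoImplicit false

namespace Pool.Agent.P.MP_e0f0cb_an

open Filter Topology Finset

section ring
variable {A : Type*} [Ring A]

lemma mem_jac {x : A} : x ∈ Ring.jacobson A ↔ ∀ M : MX A, x ∈ M.1 := by
  rw [Ring.jacobson_eq_sInf_isMaximal, Ideal.mem_sInf]
  exact ⟨fun h M => h M.2, fun h I hI => h ⟨I, hI⟩⟩

lemma jac_unit {x : A} (hx : x ∈ Ring.jacobson A) : IsUnit (1 + x) := by
  have h : ∀ y, y ∈ Ring.jacobson A → ∃ z, z * (1 + y) = 1 := by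
    intro y hy
    rw [← Ideal.jacobson_bot] at hy
    obtain ⟨z, hz⟩ := Ideal.mem_jacobson_iff.1 hy 1
    rw [Ideal.mem_bot, mul_one, sub_eq_zero] at hz
    exact ⟨z, by rw [mul_add, mul_one, add_comm, hz]⟩
  obtain ⟨z, hz⟩ := h x hx
  obtain ⟨z', hz'⟩ := h (-(z * x)) ((Ring.jacobson A).neg_mem ((Ring.jacobson A).mul_mem_left _ hx))
  have e : 1 + -(z * x) = z := by rw [← hz]; noncomm_ring
  rw [e] at hz'
  have e2 : z' = 1 + x := by
    calc z' = z' * (z * (1 + x)) := by rw [hz, mul_one]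
      _ = 1 + x := by rw [← mul_assoc, hz', one_mul]
  exact ⟨⟨1 + x, z, by rw [← e2, hz'], hz⟩, rfl⟩

end ring

variable {A : Type*} [NormedRing A] [NormedAlgebra ℂ A] [CompleteSpace A]

lemma catalan_sol (ν : A) (hν : ν ∈ Ring.jacobson A) :
    ∃ h : A, h = 1 + ν * (h * h) ∧ ∀ x, Commute x ν → Commute x h := by
  have hq := quasinil ν (fun l hl => by
    have h1 : IsUnit (1 + -(algebraMap ℂ A l⁻¹ * ν)) :=
      jac_unit ((Ring.jacobson A).neg_mem ((Ring.jacobson A).mul_mem_left _ hν))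
    have h2 := ((IsUnit.mk0 l hl).map (algebraMap ℂ A)).mul h1
    rwa [mul_add, mul_one, mul_neg, ← mul_assoc, ← map_mul, mul_inv_cancel₀ hl, map_one, one_mul,
      ← sub_eq_add_neg] at h2) (1 / 8) (by norm_num)
  let a : ℕ → A := fun k => catalan k • ν ^ k
  have hs : Summable (fun k => ‖a k‖) := by
    refine Summable.of_norm_bounded_eventually_nat summable_geometric_two ?_
    filter_upwards [hq] with k hk
    have h1 : (catalan k : ℝ) ≤ 4 ^ k := by
      have : catalan k ≤ 4 ^ k := by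
        rw [catalan_eq_centralBinom_div]
        refine (Nat.div_le_self _ _).trans ?_
        rw [Nat.centralBinom_eq_two_mul_choose]
        refine (Nat.choose_le_two_pow _ _).trans ?_
        rw [pow_mul]; norm_num
      exact_mod_cast this
    rw [norm_norm]
    refine norm_nsmul_le.trans ((mul_le_mul h1 hk (norm_nonneg _) (by positivity)).trans ?_)
    rw [← mul_pow]; norm_num
  refine ⟨∑' k, a k, ?_, fun x hx => Commute.tsum_right x (fun k => (hx.pow_right k).smul_right _)⟩
  rw [tsum_mul_tsum_eq_tsum_sum_antidiagonal_of_summable_norm hs hs,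
    ← (summable_norm_sum_mul_antidiagonal_of_summable_norm hs hs).of_norm.tsum_mul_left,
    hs.of_norm.tsum_eq_zero_add]
  congr 1
  · simp [a]
  · refine tsum_congr (fun k => ?_)
    simp only [a]
    rw [catalan_succ', sum_smul, mul_sum]
    refine sum_congr rfl (fun ij hij => ?_)
    rw [smul_mul_smul_comm, ← pow_add, mem_antidiagonal.1 hij, mul_smul_comm, pow_succ']

theorem lift_idem (f : A) (hf : f * f - f ∈ Ring.jacobson A) :
    ∃ e : A, e * e = e ∧ e - f ∈ Ring.jacobson A := by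
  have h4 : (4 : A) * (f * f - f) ∈ Ring.jacobson A := (Ring.jacobson A).mul_mem_left _ hf
  obtain ⟨U, hU⟩ := jac_unit h4
  have hν : (↑U⁻¹ : A) * (f * f - f) ∈ Ring.jacobson A := (Ring.jacobson A).mul_mem_left _ hf
  have c1 : Commute f (↑U : A) := by
    rw [hU]; change _ = _; noncomm_ring
  have c2 : Commute f (↑U⁻¹ * (f * f - f)) :=
    c1.units_inv_right.mul_right (((Commute.refl f).mul_right (Commute.refl f)).sub_right
      (Commute.refl f))
  generalize hνdef : (↑U⁻¹ : A) * (f * f - f) = ν at hν c2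
  obtain ⟨h, hh, hc⟩ := catalan_sol ν hν
  have c3 : Commute ν h := hc ν (Commute.refl ν)
  have c4 : f * (ν * h) = ν * h * f := c2.mul_right (hc f c2)
  have e1 : ν * h - ν * h * (ν * h) = ν := by
    have : ν * h * (ν * h) = ν * (ν * (h * h)) := by
      rw [mul_assoc, ← mul_assoc h, ← c3.eq, mul_assoc ν h h]
    rw [this, ← mul_sub]
    nth_rewrite 1 [hh]
    rw [add_sub_cancel_right, mul_one]
  have e2 : (1 - 2 * f) * (1 - 2 * f) * ν = f * f - f := by
    have : (1 - 2 * f) * (1 - 2 * f) = (U : A) := by rw [hU]; noncomm_ring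
    rw [this, ← hνdef, ← mul_assoc]; simp
  generalize hg : ν * h = g at c4 e1
  have hgJ : g ∈ Ring.jacobson A := by rw [← hg]; exact Ideal.mul_mem_right _ _ hν
  refine ⟨f + (1 - 2 * f) * g, ?_, by
    rw [add_sub_cancel_left]; exact (Ring.jacobson A).mul_mem_left _ hgJ⟩
  have e3 : (f + (1 - 2 * f) * g) * (f + (1 - 2 * f) * g) - (f + (1 - 2 * f) * g) =
      (f * f - f) - (1 - 2 * f) * (1 - 2 * f) * (g - g * g) -
        (1 - 2 * f) * (f * g - g * f) + 2 * ((1 - 2 * f) * (f * g - g * f) * g) := by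
    noncomm_ring
  rw [c4, e1, e2, sub_self, sub_self, mul_zero, zero_mul, mul_zero, sub_self, add_zero,
    sub_eq_zero] at e3
  exact e3

end Pool.Agent.P.MP_e0f0cb_an
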