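import Mathlib

set_option autoImplicit false

namespace Pool.Agent.P.MP_e0f0cb_an

open Filter Topology

section Gdef
variable {B : Type*} [AddCommGroup B] [Module ℂ B]

/-- shift minus `D` on sequences -/
def nab (D : B →ₗ[ℂ] B) : (ℕ → B) →ₗ[ℂ] (ℕ → B) where
  toFun V := fun i => V (i + 1) - D (V i)
  map_add' V W := by ext i; simp only [Pi.add_apply, map_add]; abel
  map_smul' c V := by ext i; simp only [Pi.smul_apply, map_smul, RingHom.id_apply, smul_sub]

/-- the `n`-th coefficient (exponential normalisation) of `exp (-X D) V` -/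
def G (D : B →ₗ[ℂ] B) (n : ℕ) : (ℕ → B) →ₗ[ℂ] B := (LinearMap.proj 0) ∘ₗ (nab D ^ n)

lemma nab_apply (D : B →ₗ[ℂ] B) (V : ℕ → B) (i : ℕ) : nab D V i = V (i + 1) - D (V i) := rfl

lemma G_zero (D : B →ₗ[ℂ] B) (V : ℕ → B) : G D 0 V = V 0 := by simp [G]

lemma G_succ (D : B →ₗ[ℂ] B) (n : ℕ) (V : ℕ → B) : G D (n + 1) V = G D n (nab D V) := by
  simp [G, pow_succ]

lemma G_nat {B' : Type*} [AddCommGroup B'] [Module ℂ B'] (D : B →ₗ[ℂ] B) (D' : B' →ₗ[ℂ] B')
    (f : B →ₗ[ℂ] B') (h : ∀ v, f (D v) = D' (f v)) (n : ℕ) :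
    ∀ V : ℕ → B, G D' n (fun i => f (V i)) = f (G D n V) := by
  induction n with
  | zero => intro V; simp [G_zero]
  | succ n ih =>
    intro V
    rw [G_succ, G_succ, ← ih]
    congr 1
    ext i
    simp [nab_apply, h]

lemma G_succ' (D : B →ₗ[ℂ] B) (n : ℕ) (V : ℕ → B) :
    G D (n + 1) V = G D n (fun i => V (i + 1)) - D (G D n V) := by
  rw [G_succ, ← G_nat D D D (fun _ => rfl) n V, ← map_sub]
  rfl

lemma G_tri (D : B →ₗ[ℂ] B) (s : ℕ) : ∀ V : ℕ → B, (∀ i < s, V i = 0) →
    (∀ n < s, G D n V = 0) ∧ G D s V = V s := by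
  induction s with
  | zero => intro V _; exact ⟨fun n hn => absurd hn (Nat.not_lt_zero n), G_zero D V⟩
  | succ s ih =>
    intro V hV
    have h1 : ∀ i < s, nab D V i = 0 := by
      intro i hi
      rw [nab_apply, hV (i + 1) (by omega), hV i (by omega)]; simp
    obtain ⟨h2, h3⟩ := ih (nab D V) h1
    refine ⟨fun n hn => ?_, ?_⟩
    · rcases n with _ | n
      · rw [G_zero]; exact hV 0 (by omega)
      · rw [G_succ]; exact h2 n (by omega)
    · rw [G_succ, h3, nab_apply, hV s (by omega)]; simp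

lemma G_congr (D : B →ₗ[ℂ] B) (q : ℕ) (V W : ℕ → B) (h : ∀ i ≤ q, V i = W i) :
    ∀ n ≤ q, G D n V = G D n W := by
  intro n hn
  have := (G_tri D (q + 1) (V - W) (fun i hi => by simp [h i (by omega)])).1 n (by omega)
  rwa [map_sub, sub_eq_zero] at this

lemma G_eq_zero_iff (D : B →ₗ[ℂ] B) (q : ℕ) (U : ℕ → B) :
    (∀ n ≤ q, G D n U = 0) ↔ ∀ n ≤ q, U n = 0 := by
  constructor
  · intro h n
    induction n using Nat.strong_induction_on with
    | _ n ih =>
      intro hn
      rw [← (G_tri D n U (fun i hi => ih i hi (by omega))).2]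
      exact h n hn
  · intro h n hn
    exact (G_tri D (q + 1) U (fun i hi => h i (by omega))).1 n (by omega)

lemma G_single (D : B →ₗ[ℂ] B) (n : ℕ) : ∀ y : B,
    G D n (Pi.single 0 y) = (-1 : ℂ) ^ n • (D ^ n) y := by
  induction n with
  | zero => intro y; simp [G_zero]
  | succ n ih =>
    intro y
    have : nab D (Pi.single 0 y) = Pi.single 0 (-D y) := by
      ext i
      rcases i with _ | i <;> simp [nab_apply]
    rw [G_succ, this, ih, pow_succ, pow_succ]
    simp

lemma G_inv (D : B →ₗ[ℂ] B) (n : ℕ) : ∀ Y : ℕ → B, G D n (fun k => G (-D) k Y) = Y n := by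
  induction n with
  | zero => intro Y; simp [G_zero]
  | succ n ih =>
    intro Y
    rw [G_succ, ← ih (fun i => Y (i + 1))]
    congr 1
    ext k
    rw [nab_apply, G_succ']
    simp

end Gdef

section conv
variable {A B : Type*} [AddCommGroup A] [Module ℂ A] [AddCommGroup B] [Module ℂ B]

/-- binomial convolution, defined by recursion -/
def conv : ℕ → (ℕ → B →ₗ[ℂ] A) → (ℕ → B) → A
  | 0, T, V => T 0 (V 0)
  | n + 1, T, V => conv n (fun i => T (i + 1)) V + conv n T (fun i => V (i + 1))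

lemma conv_sub (n : ℕ) : ∀ (T : ℕ → B →ₗ[ℂ] A) (V W : ℕ → B),
    conv n T (fun i => V i - W i) = conv n T V - conv n T W := by
  induction n with
  | zero => intro T V W; simp [conv]
  | succ n ih =>
    intro T V W
    simp only [conv]
    rw [ih, ih T (fun i => V (i + 1)) (fun i => W (i + 1))]
    abel

lemma conv_D (DA : A →ₗ[ℂ] A) (DB : B →ₗ[ℂ] B) (n : ℕ) : ∀ (T : ℕ → B →ₗ[ℂ] A) (V : ℕ → B),
    (∀ i v, DA (T i v) = T (i + 1) v + T i (DB v)) →
    DA (conv n T V) = conv n (fun i => T (i + 1)) V + conv n T (fun i => DB (V i)) := by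
  induction n with
  | zero => intro T V h; simp [conv, h]
  | succ n ih =>
    intro T V h
    simp only [conv, map_add]
    rw [ih _ V (fun i v => h (i + 1) v), ih T _ h]
    abel

lemma G_conv (DA : A →ₗ[ℂ] A) (DB : B →ₗ[ℂ] B) (T : ℕ → B →ₗ[ℂ] A)
    (h : ∀ i v, DA (T i v) = T (i + 1) v + T i (DB v)) (n : ℕ) :
    ∀ V : ℕ → B, G DA n (fun k => conv k T V) = T 0 (G DB n V) := by
  induction n with
  | zero => intro V; simp [G_zero, conv]
  | succ n ih =>
    intro V
    rw [G_succ, G_succ, ← ih]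
    congr 1
    ext k
    rw [nab_apply, conv_D DA DB k T V h]
    have := conv_sub k T (fun i => V (i + 1)) (fun i => DB (V i))
    simp only [conv]
    rw [show nab DB V = fun i => V (i + 1) - DB (V i) from rfl, this]
    abel

end conv

section jet
variable {A B : Type*} [NormedAddCommGroup A] [NormedSpace ℂ A]
  [NormedAddCommGroup B] [NormedSpace ℂ B]

lemma conv_cont (n : ℕ) : ∀ (T : ℕ → B →ₗ[ℂ] A), (∀ i, Continuous (T i)) →
    Continuous (fun V : ℕ → B => conv n T V) := by
  induction n with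
  | zero => intro T h; exact (h 0).comp (continuous_apply 0)
  | succ n ih =>
    intro T h
    simp only [conv]
    refine (ih _ (fun i => h (i + 1))).add ((ih T h).comp ?_)
    exact continuous_pi (fun i => continuous_apply (i + 1))

/-- extension by zero -/
def extz (q : ℕ) : (Fin (q + 1) → B) →ₗ[ℂ] (ℕ → B) where
  toFun U := fun i => if h : i < q + 1 then U ⟨i, h⟩ else 0
  map_add' U W := by
    ext i
    by_cases h : i < q + 1
    · simp only [Pi.add_apply, dif_pos h]
    · simp only [Pi.add_apply, dif_neg h, add_zero]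
  map_smul' c U := by
    ext i
    by_cases h : i < q + 1
    · simp only [Pi.smul_apply, dif_pos h, RingHom.id_apply]
    · simp only [Pi.smul_apply, dif_neg h, RingHom.id_apply, smul_zero]

lemma extz_apply (q : ℕ) (U : Fin (q + 1) → B) (i : ℕ) (h : i < q + 1) :
    extz q U i = U ⟨i, h⟩ := dif_pos h

lemma extz_cont (q : ℕ) : Continuous (extz (B := B) q) := by
  refine continuous_pi (fun i => ?_)
  by_cases h : i < q + 1
  · simp only [extz_apply q _ i h]; exact continuous_apply _
  · simp only [extz, LinearMap.coe_mk, AddHom.coe_mk, h, dite_false]; exact continuous_const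

theorem jet_lift [CompleteSpace B] {ι : Type*} (DA : A →ₗ[ℂ] A) (DB : B →ₗ[ℂ] B)
    (T : ι → ℕ → B →ₗ[ℂ] A) (hc : ∀ p i, Continuous (T p i))
    (h : ∀ p i v, DA (T p i v) = T p (i + 1) v + T p i (DB v)) (s q : ℕ) (hs : s ≤ q) :
    ∃ C > 0, ∀ v : B, (∀ p, T p 0 v = 0) → ∃ V : ℕ → B, (∀ i < s, V i = 0) ∧ V s = v ∧
      (∀ i ≤ q, ‖V i‖ ≤ C * ‖v‖) ∧ ∀ n ≤ q, ∀ p, T p 0 (G DB n V) = 0 := by
  let K : Submodule ℂ B :=
    { carrier := {v | ∀ p, T p 0 v = 0}
      add_mem' := fun {a b} ha hb p => by rw [map_add, ha p, hb p, add_zero]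
      zero_mem' := fun p => map_zero _
      smul_mem' := fun c a ha p => by rw [map_smul, ha p, smul_zero] }
  let W : Submodule ℂ (Fin (q + 1) → B) :=
    { carrier := {U | (∀ i < s, extz q U i = 0) ∧ ∀ n ≤ q, ∀ p, T p 0 (G DB n (extz q U)) = 0}
      add_mem' := fun {a b} ha hb => ⟨fun i hi => by
          rw [map_add, Pi.add_apply, ha.1 i hi, hb.1 i hi, add_zero], fun n hn p => by
          rw [map_add, map_add, map_add, ha.2 n hn p, hb.2 n hn p, add_zero]⟩
      zero_mem' := ⟨fun i _ => by rw [map_zero]; rfl, fun n _ p => by simp⟩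
      smul_mem' := fun c a ha => ⟨fun i hi => by
          rw [map_smul, Pi.smul_apply, ha.1 i hi, smul_zero], fun n hn p => by
          rw [map_smul, map_smul, map_smul, ha.2 n hn p, smul_zero]⟩ }
  have hK : IsClosed (K : Set B) := by
    have : (K : Set B) = ⋂ p, {v | T p 0 v = 0} := by ext v; simp [K]
    rw [this]
    exact isClosed_iInter (fun p => isClosed_eq (hc p 0) continuous_const)
  have hW : IsClosed (W : Set (Fin (q + 1) → B)) := by
    have : (W : Set (Fin (q + 1) → B)) = (⋂ i, ⋂ (_ : i < s), {U | extz q U i = 0}) ∩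
        ⋂ p, ⋂ n, ⋂ (_ : n ≤ q), {U | conv n (T p) (extz q U) = 0} := by
      ext U
      simp only [W, Submodule.coe_set_mk, AddSubmonoid.coe_set_mk, AddSubsemigroup.coe_set_mk,
        Set.mem_ofPred_eq, Set.mem_inter_iff, Set.mem_iInter]
      refine and_congr Iff.rfl ⟨fun H p => ?_, fun H n hn p => ?_⟩
      · refine (G_eq_zero_iff DA q _).1 (fun n hn => ?_)
        rw [G_conv DA DB (T p) (h p)]; exact H n hn p
      · rw [← G_conv DA DB (T p) (h p)]
        exact (G_eq_zero_iff DA q _).2 (H p) n hn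
    rw [this]
    refine IsClosed.inter (isClosed_iInter fun i => isClosed_iInter fun _ => ?_)
      (isClosed_iInter fun p => isClosed_iInter fun n => isClosed_iInter fun _ => ?_)
    · exact isClosed_eq ((continuous_apply i).comp (extz_cont q)) continuous_const
    · exact isClosed_eq ((conv_cont n (T p) (hc p)).comp (extz_cont q)) continuous_const
  have : CompleteSpace K := hK.completeSpace_coe
  have : CompleteSpace W := hW.completeSpace_coe
  have hs' : s < q + 1 := by omega
  let f : W →L[ℂ] K :=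
    ((ContinuousLinearMap.proj (R := ℂ) (φ := fun _ : Fin (q + 1) => B) ⟨s, hs'⟩).comp
      W.subtypeL).codRestrict K (fun U p => by
        have h1 := U.2.2 s hs p
        rw [(G_tri DB s _ U.2.1).2, extz_apply q _ s hs'] at h1
        exact h1)
  have hf : Function.Surjective f := by
    intro v
    let Y : ℕ → B := Pi.single s (v : B)
    have hY : ∀ i < s, Y i = 0 := fun i hi => by simp [Y, Pi.single_eq_of_ne (Nat.ne_of_lt hi)]
    let V : ℕ → B := fun k => G (-DB) k Y
    have hV : ∀ i ≤ q, extz q (fun i : Fin (q + 1) => V i) i = V i := fun i hi => by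
      rw [extz_apply q _ i (by omega)]
    refine ⟨⟨fun i => V i, fun i hi => ?_, fun n hn p => ?_⟩, ?_⟩
    · rw [hV i (by omega)]; exact (G_tri (-DB) s Y hY).1 i hi
    · rw [G_congr DB q _ V hV n hn, G_inv]
      by_cases hn : n = s
      · subst hn; simpa [Y] using v.2 p
      · simp [Y, Pi.single_eq_of_ne hn]
    · apply Subtype.ext
      change V s = v
      simp only [V]
      rw [(G_tri (-DB) s Y hY).2]
      simp [Y]
  obtain ⟨C, hC, hC'⟩ := f.exists_preimage_norm_le hf
  refine ⟨C, hC, fun v hv => ?_⟩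
  obtain ⟨U, hU, hU'⟩ := hC' ⟨v, hv⟩
  refine ⟨extz q U.1, U.2.1, ?_, fun i hi => ?_, U.2.2⟩
  · rw [extz_apply q _ s hs']
    exact congrArg Subtype.val hU
  · rw [extz_apply q _ i (by omega)]
    exact (norm_le_pi_norm U.1 _).trans hU'

end jet

end Pool.Agent.P.MP_e0f0cb_an
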