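import Pool.Agent.P.MP_e0f0cb_an.Dev

set_option autoImplicit false

namespace Pool.Agent.P.MP_e0f0cb_an

open Filter Topology Finset

lemma fact_contra (C K : ℝ) (h : ∀ n : ℕ, 1 ≤ n → (n.factorial : ℝ) ≤ C * K ^ n) : False := by
  have h1 := (FloorSemiring.tendsto_pow_div_factorial_atTop K).const_mul C
  rw [mul_zero] at h1
  obtain ⟨n, hn, hn1⟩ := ((h1.eventually (gt_mem_nhds one_pos)).and (eventually_ge_atTop 1)).exists
  have hp : (0 : ℝ) < n.factorial := by exact_mod_cast n.factorial_pos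
  rw [← mul_div_assoc, div_lt_one hp] at hn
  linarith [h n hn1]

variable {A : Type*} [NormedRing A] [NormedAlgebra ℂ A] [CompleteSpace A]

lemma step_one (φ : A →ₗ[ℂ] ℂ) (hloc : ∀ a, φ a ≠ 0 → IsUnit a) (t : A)
    (hq : ∀ C : ℝ, 0 ≤ C → ∃ k, C ^ k * ‖t ^ k‖ ≤ 1 / 2) (hH : HH t) : StepHyp φ TDZ := by
  intro S hS y hy hy0 z hz
  let ε : ℕ → ℝ := fun k => √‖y k‖ + 1 / ((k : ℝ) + 1)
  have hε : ∀ k, 0 < ε k := fun k => by positivity
  have hε0 : Tendsto ε atTop (𝓝 0) := by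
    have := hy0.norm.sqrt.add (tendsto_one_div_add_atTop_nhds_zero_nat (𝕜 := ℝ))
    rw [norm_zero, Real.sqrt_zero, add_zero] at this
    exact this
  let δ : ℕ → ℝ := fun k => ε k / (‖z (Nat.unpair k)‖ + 1)
  have hδ : ∀ k, 0 < δ k := fun k => div_pos (hε k) (by positivity)
  let w : ℕ → A := fun n => if n % 2 = 0 then (((ε (n / 2))⁻¹ : ℝ) : ℂ) • y (n / 2)
    else ((δ (n / 2) : ℝ) : ℂ) • z (Nat.unpair (n / 2))
  have hw : ∀ n, w n ∈ S := fun n => by
    simp only [w]
    split_ifs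
    · exact S.smul_mem _ (hy _)
    · exact S.smul_mem _ (hz _)
  have hwn : ∀ n, ‖w n‖ ≤ ε (n / 2) := fun n => by
    simp only [w]
    split_ifs
    · rw [norm_smul, Complex.norm_real, norm_inv, Real.norm_of_nonneg (hε _).le,
        inv_mul_le_iff₀ (hε _)]
      have h1 : √‖y (n / 2)‖ ≤ ε (n / 2) := le_add_of_nonneg_right (by positivity)
      calc ‖y (n / 2)‖ = √‖y (n / 2)‖ * √‖y (n / 2)‖ := (Real.mul_self_sqrt (norm_nonneg _)).symm
        _ ≤ _ := mul_le_mul h1 h1 (Real.sqrt_nonneg _) (hε _).le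
    · rw [norm_smul, Complex.norm_real, Real.norm_of_nonneg (hδ _).le]
      simp only [δ]
      rw [div_mul_eq_mul_div, div_le_iff₀ (by positivity)]
      exact mul_le_mul_of_nonneg_left (by linarith) (hε _).le
  have hw0 : Tendsto w atTop (𝓝 0) := by
    rw [tendsto_zero_iff_norm_tendsto_zero]
    exact squeeze_zero (fun n => norm_nonneg _) hwn
      (hε0.comp (Nat.tendsto_div_const_atTop (by norm_num)))
  obtain ⟨a, ha, c, M, hM, hc⟩ := device t hq hH.inj S hS w hw hw0
  refine ⟨fun _ => a, fun _ => t, fun k => ((ε k : ℝ) : ℂ) • c (2 * k), fun k _ => ?_, ?_,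
    fun i => ?_, ?_, ?_⟩
  · have h1 := hc (2 * k)
    have h2 : w (2 * k) = (((ε k)⁻¹ : ℝ) : ℂ) • y k := by simp [w]
    rw [mul_smul_comm, ← h1, h2, mul_smul_comm, smul_smul, ← Complex.ofReal_mul,
      mul_inv_cancel₀ (hε k).ne', Complex.ofReal_one, one_smul]
  · rw [tendsto_zero_iff_norm_tendsto_zero]
    refine squeeze_zero (fun n => norm_nonneg _) (fun k => ?_) (by simpa using hε0.mul_const M)
    rw [norm_smul, Complex.norm_real, Real.norm_of_nonneg (hε _).le]
    exact mul_le_mul_of_nonneg_left (hM _) (hε _).le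
  · set k := Nat.pair i.1 i.2 with hk
    have h2 : w (2 * k + 1) = ((δ k : ℝ) : ℂ) • z i := by
      have e1 : (2 * k + 1) % 2 ≠ 0 := by omega
      have e2 : (2 * k + 1) / 2 = k := by omega
      simp only [w, if_neg e1, e2]
      rw [hk, Nat.unpair_pair]
    have h3 : w (2 * k + 1) ∈ dom (fun _ => a) (fun _ => t) := ⟨c _, fun _ => hc _⟩
    rw [h2] at h3
    exact (Submodule.smul_mem_iff _ (Complex.ofReal_ne_zero.2 (hδ k).ne')).1 h3
  · intro n z' hz' hB
    have : ∀ i, ∃ c', i < n → a * z' i = t * c' := fun i => by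
      by_cases hi : i < n
      · obtain ⟨c', hc'⟩ := hz' i hi
        exact ⟨c', fun _ => hc' 0⟩
      · exact ⟨0, fun h => absurd h hi⟩
    choose c' hc' using this
    obtain ⟨b, hb⟩ := hH n z' c' a hB (fun i hi => (hc' i hi).symm)
    obtain ⟨C, hC⟩ := hB
    have h1 := hC (a - t * b)
    rw [sum_eq_zero (fun i hi => by
      rw [sub_mul, hc' i (mem_range.1 hi), mul_assoc, ← hb i (mem_range.1 hi), sub_self,
        norm_zero]), mul_zero, norm_le_zero_iff, sub_eq_zero] at h1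
    exact ha b h1
  · rintro x ⟨c', hc'⟩
    by_contra hx
    obtain ⟨u, rfl⟩ := hloc x hx
    exact ha (c' * ↑u⁻¹) (by rw [← mul_assoc, ← hc' 0]; simp)

open MulOpposite in
lemma case_zero (D : A →ₗ[ℂ] A) (hD : ∀ a b, D (a * b) = D a * b + a * D b) (φ : A →ₗ[ℂ] ℂ)
    (hφ : ∀ a b, φ (a * b) = φ a * φ b) (hloc : ∀ a, φ a ≠ 0 → IsUnit a) (t : A) (ht : φ t = 0)
    (hu : φ (D t) ≠ 0) (m : ℕ) (hm : 1 ≤ m) (hψ : ∀ l < m, Bdd (fun x => φ ((D ^ l) x)))
    (hψm : ¬ Bdd (fun x => φ ((D ^ m) x))) (hH : ¬ HH t) : False := by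
  simp only [HH, not_forall, not_exists] at hH
  obtain ⟨n, z, c, b, ⟨C, hC⟩, hb, hne⟩ := hH
  let e := opLinearEquiv (M := A) ℂ
  let D' : Aᵐᵒᵖ →ₗ[ℂ] Aᵐᵒᵖ := e.toLinearMap ∘ₗ D ∘ₗ e.symm.toLinearMap
  let φ' : Aᵐᵒᵖ →ₗ[ℂ] ℂ := φ ∘ₗ e.symm.toLinearMap
  have hD' : ∀ x, D' x = op (D (unop x)) := fun x => rfl
  have hφ' : ∀ x, φ' x = φ (unop x) := fun x => rfl
  have hpow : ∀ l x, φ' ((D' ^ l) x) = φ ((D ^ l) (unop x)) := by
    have : ∀ l x, (D' ^ l) x = op ((D ^ l) (unop x)) := by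
      intro l x
      induction l with
      | zero => simp
      | succ l ih => rw [pow_succ_apply, pow_succ_apply, ih, hD', unop_op]
    intro l x
    rw [this, hφ', unop_op]
  have hder : ∀ a b, D' (a * b) = D' a * b + a * D' b := fun a b => by
    apply unop_injective
    simp [hD', hD, add_comm]
  have hψ' : ∀ l < m, Bdd (fun x => φ' ((D' ^ l) x)) := fun l hl => by
    obtain ⟨C, hC⟩ := hψ l hl
    exact ⟨C, fun x => by simp only [hpow]; exact hC (unop x)⟩
  let a : ℕ → Aᵐᵒᵖ := fun p => if p < n then op (c p) else 0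
  let τ : ℕ → Aᵐᵒᵖ := fun p => if p < n then op (z p) else 0
  have hsys : ∀ y w : Aᵐᵒᵖ, (∀ p, a p * y = τ p * w) ↔ ∀ i < n, unop y * c i = unop w * z i := by
    intro y w
    constructor
    · intro h i hi
      have := congrArg unop (h i)
      simpa [a, τ, hi] using this
    · intro h p
      by_cases hp : p < n
      · apply unop_injective
        simpa [a, τ, hp] using h p hp
      · simp [a, τ, hp]
  have hstep : StepHyp φ' (fun S => S = dom a τ) := by
    rintro S rfl y hy hy0 z' hz'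
    choose w hw using hy
    refine ⟨a, τ, w, hw, ?_, hz', rfl, ?_⟩
    · rw [tendsto_zero_iff_norm_tendsto_zero]
      refine squeeze_zero (g := fun k => |C| * (‖y k‖ * ∑ i ∈ range n, ‖c i‖))
        (fun k => norm_nonneg _) (fun k => ?_) ?_
      · refine (hC (unop (w k))).trans
          ((mul_le_mul_of_nonneg_right (le_abs_self C) (by positivity)).trans
            (mul_le_mul_of_nonneg_left ?_ (abs_nonneg C)))
        rw [mul_sum]
        refine sum_le_sum (fun i hi => ?_)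
        rw [← (hsys _ _).1 (hw k) i (mem_range.1 hi)]
        exact norm_mul_le _ _
      · simpa using (hy0.norm.mul_const (∑ i ∈ range n, ‖c i‖)).const_mul |C|
    · rintro x ⟨w, hw⟩
      by_contra hx
      obtain ⟨u, hu⟩ := hloc (unop x) hx
      obtain ⟨i, hi, hi'⟩ := hne (↑u⁻¹ * unop w)
      apply hi'
      rw [mul_assoc, ← (hsys _ _).1 hw i hi, ← hu, ← mul_assoc]
      simp
  refine hump_local D' hder φ' (fun a b => by rw [hφ', unop_mul, hφ, mul_comm]; rfl)
    (fun a ha => (hloc (unop a) ha).op) (op t) ht hu m hm hψ' ?_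
    (c_prop D' hder φ' m hψ' _ hstep hm (op t) _ rfl (fun w => ⟨op (unop w * b), ?_⟩))
  · rintro ⟨C, hC⟩
    exact hψm ⟨C, fun x => by have := hC (op x); simp only [hpow] at this; exact this⟩
  · refine (hsys _ _).2 (fun i hi => ?_)
    rw [unop_mul, unop_op, unop_op, mul_assoc, hb i hi, mul_assoc]

/-- the local case -/
theorem local_thm (D : A →ₗ[ℂ] A) (hD : ∀ a b, D (a * b) = D a * b + a * D b) (φ : A →ₗ[ℂ] ℂ)
    (hφ : ∀ a b, φ (a * b) = φ a * φ b) (h1 : φ 1 = 1) (hc : Bdd φ)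
    (hloc : ∀ a, φ a ≠ 0 → IsUnit a) (t : A) (ht : φ t = 0) : φ (D t) = 0 := by
  by_contra hu
  by_cases hall : ∀ k, Bdd (fun x => φ ((D ^ k) x))
  · obtain ⟨C, K, hC, hK, h⟩ := sinclair D φ (fun k => Bdd.cont (φ ∘ₗ D ^ k) (hall k))
    have hp : 0 < ‖φ (D t)‖ := norm_pos_iff.2 hu
    refine fact_contra C (K * ‖t‖ / ‖φ (D t)‖) (fun n hn => ?_)
    have e1 := (pow_leibniz D hD (LinearMap.ker φ) (fun a x hx => by
      rw [LinearMap.mem_ker] at *; rw [hφ, hx, mul_zero]) (fun a x hx => by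
      rw [LinearMap.mem_ker] at *; rw [hφ, hx, zero_mul]) t ht n).2
    have e2 : ∀ k, φ (D t ^ k) = φ (D t) ^ k := fun k => by
      induction k with
      | zero => simpa using h1
      | succ k ih => rw [pow_succ, pow_succ, hφ, ih]
    rw [LinearMap.mem_ker, map_sub, map_smul, sub_eq_zero, e2] at e1
    have e3 := h n (t ^ n)
    rw [e1, norm_smul, norm_pow, Complex.norm_natCast] at e3
    rw [div_pow, ← mul_div_assoc, le_div_iff₀ (pow_pos hp n), mul_pow, ← mul_assoc]
    exact e3.trans (mul_le_mul_of_nonneg_left (norm_pow_le' t hn) (by positivity))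
  · push Not at hall
    classical
    have hm : 1 ≤ Nat.find hall := by
      rw [Nat.one_le_iff_ne_zero, Ne, Nat.find_eq_zero, not_not]
      simpa using hc
    have hψ : ∀ l < Nat.find hall, Bdd (fun x => φ ((D ^ l) x)) := fun l hl =>
      not_not.1 (Nat.find_min hall hl)
    by_cases hH : HH t
    · have hq := quasinil_half t (fun l hl => hloc _ (by
        rwa [map_sub, ht, sub_zero, Algebra.algebraMap_eq_smul_one, map_smul, h1, smul_eq_mul,
          mul_one]))
      exact hump_local D hD φ hφ hloc t ht hu _ hm hψ (Nat.find_spec hall)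
        (c_prop D hD φ _ hψ TDZ (step_one φ hloc t hq hH) hm t _
          (tdz_range t hq (D t) (by rintro h; exact hu (by rw [h, map_zero])))
          (fun w => ⟨w, rfl⟩))
    · exact case_zero D hD φ hφ hloc t ht hu _ hm hψ (Nat.find_spec hall) hH

end Pool.Agent.P.MP_e0f0cb_an
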