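import Pool.Agent.P.MP_e0f0cb_an.Jet
import Pool.Agent.P.MP_e0f0cb_an.Basic

set_option autoImplicit false

namespace Pool.Agent.P.MP_e0f0cb_an

open Filter Topology Finset

section bdd
variable {X F : Type*} [NormedAddCommGroup X] [NormedAddCommGroup F]

/-- linear growth bound -/
def Bdd (f : X → F) : Prop := ∃ C : ℝ, ∀ x, ‖f x‖ ≤ C * ‖x‖

lemma Bdd.nonneg {f : X → F} (h : Bdd f) : ∃ C : ℝ, 0 ≤ C ∧ ∀ x, ‖f x‖ ≤ C * ‖x‖ := by
  obtain ⟨C, hC⟩ := h
  exact ⟨|C|, abs_nonneg C, fun x => (hC x).trans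
    (mul_le_mul_of_nonneg_right (le_abs_self C) (norm_nonneg _))⟩

lemma Bdd.zero {f : X → F} (h : ∀ x, f x = 0) : Bdd f := ⟨0, fun x => by simp [h]⟩

lemma Bdd.add {f g : X → F} (hf : Bdd f) (hg : Bdd g) : Bdd (fun x => f x + g x) := by
  obtain ⟨C, hC⟩ := hf
  obtain ⟨C', hC'⟩ := hg
  exact ⟨C + C', fun x => (norm_add_le _ _).trans (by linarith [hC x, hC' x])⟩

lemma Bdd.sub {f g : X → F} (hf : Bdd f) (hg : Bdd g) : Bdd (fun x => f x - g x) := by
  obtain ⟨C, hC⟩ := hf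
  obtain ⟨C', hC'⟩ := hg
  exact ⟨C + C', fun x => (norm_sub_le _ _).trans (by linarith [hC x, hC' x])⟩

lemma Bdd.sum {ι : Type*} (s : Finset ι) (f : ι → X → F) (h : ∀ i ∈ s, Bdd (f i)) :
    Bdd (fun x => ∑ i ∈ s, f i x) := by
  classical
  induction s using Finset.induction_on with
  | empty => exact Bdd.zero (fun x => by simp)
  | insert i s hi ih =>
    simp only [sum_insert hi]
    exact (h i (mem_insert_self _ _)).add (ih (fun j hj => h j (mem_insert_of_mem hj)))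

lemma Bdd.smul [NormedSpace ℂ F] {f : X → F} (hf : Bdd f) (c : ℂ) : Bdd (fun x => c • f x) := by
  obtain ⟨C, hC⟩ := hf
  exact ⟨‖c‖ * C, fun x => by
    rw [norm_smul, mul_assoc]; exact mul_le_mul_of_nonneg_left (hC x) (norm_nonneg _)⟩

lemma Bdd.nsmul [NormedSpace ℂ F] {f : X → F} (hf : Bdd f) (n : ℕ) : Bdd (fun x => n • f x) := by
  simpa only [Nat.cast_smul_eq_nsmul] using hf.smul (n : ℂ)

lemma Bdd.cont [NormedSpace ℂ X] [NormedSpace ℂ F] (f : X →ₗ[ℂ] F) (h : Bdd f) :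
    Continuous f := by
  obtain ⟨C, hC⟩ := h
  exact AddMonoidHomClass.continuous_of_bound f C hC

lemma exists_big [NormedSpace ℂ X] [NormedSpace ℂ F] (f : X →ₗ[ℂ] F) (h : ¬ Bdd f) (B : ℝ) :
    ∃ x, ‖x‖ ≤ 1 ∧ B < ‖f x‖ := by
  simp only [Bdd, not_exists, not_forall, not_le] at h
  obtain ⟨x, hx⟩ := h B
  have h0 : x ≠ 0 := by rintro rfl; simp at hx
  have hp : 0 < ‖x‖ := norm_pos_iff.2 h0
  refine ⟨((‖x‖⁻¹ : ℝ) : ℂ) • x, ?_, ?_⟩
  · rw [norm_smul, Complex.norm_real, norm_inv, norm_norm, inv_mul_cancel₀ hp.ne']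
  · rw [map_smul, norm_smul, Complex.norm_real, norm_inv, norm_norm, lt_inv_mul_iff₀ hp, mul_comm]
    exact hx

end bdd

variable {A : Type*} [NormedRing A] [NormedAlgebra ℂ A] [CompleteSpace A]

/-- the solution ideal of the system `a p * y = τ p * c` -/
def dom (a τ : ℕ → A) : Submodule ℂ A where
  carrier := {y | ∃ c, ∀ p, a p * y = τ p * c}
  add_mem' := by
    rintro y y' ⟨c, hc⟩ ⟨c', hc'⟩
    exact ⟨c + c', fun p => by rw [mul_add, mul_add, hc, hc']⟩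
  zero_mem' := ⟨0, fun p => by simp⟩
  smul_mem' := by
    rintro l y ⟨c, hc⟩
    exact ⟨l • c, fun p => by rw [mul_smul_comm, mul_smul_comm, hc]⟩

lemma jet_sys (D : A →ₗ[ℂ] A) (hD : ∀ a b, D (a * b) = D a * b + a * D b) (a τ : ℕ → A)
    (s q : ℕ) (hs : s ≤ q) :
    ∃ C > 0, ∀ y c : A, (∀ p, a p * y = τ p * c) → ∃ V : ℕ → A, (∀ i < s, V i = 0) ∧ V s = y ∧
      (∀ i ≤ q, ‖V i‖ ≤ C * (‖y‖ + ‖c‖)) ∧ ∀ n ≤ q, G D n V ∈ dom a τ := by
  let T : ℕ → ℕ → (A × A) →ₗ[ℂ] A := fun p i =>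
    (LinearMap.mulLeft ℂ ((D ^ i) (a p))) ∘ₗ LinearMap.fst ℂ A A -
      (LinearMap.mulLeft ℂ ((D ^ i) (τ p))) ∘ₗ LinearMap.snd ℂ A A
  have hT : ∀ p i v, T p i v = (D ^ i) (a p) * v.1 - (D ^ i) (τ p) * v.2 := fun p i v => rfl
  obtain ⟨C, hC, h⟩ := jet_lift D (D.prodMap D) T (fun p i => by
    change Continuous (fun v : A × A => (D ^ i) (a p) * v.1 - (D ^ i) (τ p) * v.2)
    fun_prop) (fun p i v => by
    rw [hT, hT, hT, map_sub, hD, hD, pow_succ_apply, pow_succ_apply]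
    simp only [LinearMap.prodMap_apply]
    abel) s q hs
  refine ⟨C, hC, fun y c hyc => ?_⟩
  obtain ⟨V, h1, h2, h3, h4⟩ := h (y, c) (fun p => by rw [hT]; simp [hyc p])
  refine ⟨fun i => (V i).1, fun i hi => by simp [h1 i hi], by simp [h2], fun i hi => ?_,
    fun n hn => ⟨(G (D.prodMap D) n V).2, fun p => ?_⟩⟩
  · refine (norm_fst_le _).trans ((h3 i hi).trans (mul_le_mul_of_nonneg_left ?_ hC.le))
    rw [Prod.norm_def]
    exact max_le (by simp) (by simp)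
  · have h5 := h4 n hn p
    rw [hT] at h5
    have h6 := G_nat (D.prodMap D) D (LinearMap.fst ℂ A A) (fun _ => rfl) n V
    simp only [LinearMap.fst_apply] at h6
    rw [h6]
    simpa [sub_eq_zero] using h5

/-- the closure property of a class of subspaces -/
def StepHyp (φ : A →ₗ[ℂ] ℂ) (Good : Submodule ℂ A → Prop) : Prop :=
  ∀ S, Good S → ∀ y : ℕ → A, (∀ k, y k ∈ S) → Tendsto y atTop (𝓝 0) →
    ∀ z : ℕ × ℕ → A, (∀ i, z i ∈ S) → ∃ a τ c : ℕ → A, (∀ k p, a p * y k = τ p * c k) ∧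
      Tendsto c atTop (𝓝 0) ∧ (∀ i, z i ∈ dom a τ) ∧ Good (dom a τ) ∧ ∀ x ∈ dom a τ, φ x = 0

omit [CompleteSpace A] in
lemma base_est (D : A →ₗ[ℂ] A) (φ : A →ₗ[ℂ] ℂ) (m : ℕ)
    (hψ : ∀ l < m, Bdd (fun x => φ ((D ^ l) x))) (r : ℕ) :
    ∀ (l j : ℕ) (V : ℕ → ℕ → A), (∀ k, ∀ i < j, V k i = 0) →
      (∀ i ≤ r, Tendsto (fun k => V k i) atTop (𝓝 0)) → l + r < j + m →
      Tendsto (fun k => φ ((D ^ l) (G D r (V k)))) atTop (𝓝 0) := by
  induction r with
  | zero =>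
    intro l j V h1 h2 h3
    simp only [G_zero]
    rcases j with _ | j
    · have hc : Continuous (φ ∘ₗ D ^ l) := Bdd.cont _ (hψ l (by omega))
      have := (hc.tendsto 0).comp (h2 0 le_rfl)
      rw [map_zero] at this
      exact this
    · simp [h1 _ 0 (Nat.succ_pos j)]
  | succ r ih =>
    intro l j V h1 h2 h3
    simp only [G_succ', map_sub, ← pow_succ_apply']
    have e1 := ih l (j - 1) (fun k i => V k (i + 1)) (fun k i hi => h1 k _ (by omega))
      (fun i hi => h2 _ (by omega)) (by omega)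
    have e2 := ih (l + 1) j V h1 (fun i hi => h2 _ (by omega)) (by omega)
    simpa using e1.sub e2

theorem p_lemma (D : A →ₗ[ℂ] A) (hD : ∀ a b, D (a * b) = D a * b + a * D b) (φ : A →ₗ[ℂ] ℂ)
    (m : ℕ) (hψ : ∀ l < m, Bdd (fun x => φ ((D ^ l) x))) (Good : Submodule ℂ A → Prop)
    (hstep : StepHyp φ Good) (j q : ℕ) (hq : q + 1 = j + m) (hm : 1 ≤ m) (d : ℕ) :
    ∀ s, s + d = j → ∀ S, Good S → ∀ V : ℕ → ℕ → A, (∀ k, ∀ i < s, V k i = 0) →
      (∀ i ≤ q, Tendsto (fun k => V k i) atTop (𝓝 0)) → (∀ k, ∀ i < j, G D i (V k) ∈ S) →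
      ∀ r ≤ q, Tendsto (fun k => φ (G D r (V k))) atTop (𝓝 0) := by
  induction d with
  | zero =>
    intro s hs S _ V h1 h2 _ r hr
    have := base_est D φ m hψ r 0 j V (fun k i hi => h1 k i (by omega))
      (fun i hi => h2 i (by omega)) (by omega)
    simpa using this
  | succ d ih =>
    intro s hs S hS V h1 h2 h3 r hr
    have hy : ∀ k, V k s ∈ S := fun k => by
      rw [← (G_tri D s (V k) (h1 k)).2]; exact h3 k s (by omega)
    obtain ⟨a, τ, c, e1, e2, e3, e4, e5⟩ := hstep S hS (fun k => V k s) hy (h2 s (by omega))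
      (fun z => if z.2 < j then G D z.2 (V z.1) else 0) (fun z => by
        split_ifs with h
        · exact h3 _ _ h
        · exact S.zero_mem)
    obtain ⟨C, hC, hJ⟩ := jet_sys D hD a τ s q (by omega)
    choose W w1 w2 w3 w4 using fun k => hJ (V k s) (c k) (e1 k)
    have hW : ∀ i ≤ q, Tendsto (fun k => W k i) atTop (𝓝 0) := by
      intro i hi
      rw [tendsto_zero_iff_norm_tendsto_zero]
      refine squeeze_zero (fun k => norm_nonneg _) (fun k => w3 k i hi) ?_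
      have := (((h2 s (by omega)).norm).add e2.norm).const_mul C
      simpa using this
    have := ih (s + 1) (by omega) (dom a τ) e4 (fun k => V k - W k) (fun k i hi => by
      rcases Nat.lt_succ_iff_lt_or_eq.1 hi with h | h
      · simp [h1 k i h, w1 k i h]
      · simp [h, w2 k]) (fun i hi => by simpa using (h2 i hi).sub (hW i hi)) (fun k i hi => by
      rw [map_sub]
      refine (dom a τ).sub_mem ?_ (w4 k i (by omega))
      simpa [hi] using e3 (k, i)) r hr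
    simpa only [map_sub, e5 _ (w4 _ r hr), sub_zero] using this

/-- elements whose first `j` derivatives lie in `t A` -/
def Iord (D : A →ₗ[ℂ] A) (t : A) (j : ℕ) : Submodule ℂ A where
  carrier := {y | ∀ i < j, ∃ w, (D ^ i) y = t * w}
  add_mem' := by
    intro y y' h h' i hi
    obtain ⟨w, hw⟩ := h i hi
    obtain ⟨w', hw'⟩ := h' i hi
    exact ⟨w + w', by rw [map_add, hw, hw', mul_add]⟩
  zero_mem' := fun i _ => ⟨0, by simp⟩
  smul_mem' := by
    intro l y h i hi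
    obtain ⟨w, hw⟩ := h i hi
    exact ⟨l • w, by rw [map_smul, hw, mul_smul_comm]⟩

theorem c_prop (D : A →ₗ[ℂ] A) (hD : ∀ a b, D (a * b) = D a * b + a * D b) (φ : A →ₗ[ℂ] ℂ)
    (m : ℕ) (hψ : ∀ l < m, Bdd (fun x => φ ((D ^ l) x))) (Good : Submodule ℂ A → Prop)
    (hstep : StepHyp φ Good) (hm : 1 ≤ m) (t : A) (S : Submodule ℂ A) (hS : Good S)
    (ht : ∀ w, t * w ∈ S) (j r : ℕ) (hr : r < j + m) :
    ∃ C : ℝ, 0 ≤ C ∧ ∀ y ∈ Iord D t j, ‖φ ((D ^ r) y)‖ ≤ C * ‖y‖ := by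
  refine bound_of_seq (Iord D t j) (φ ∘ₗ D ^ r) (fun y hy hy0 => ?_)
  have := p_lemma D hD φ m hψ Good hstep j (j + m - 1) (by omega) hm j 0 (by omega) S hS
    (fun k => Pi.single 0 (y k)) (fun k i hi => absurd hi (Nat.not_lt_zero i)) (fun i _ => by
      rcases i with _ | i
      · simpa using hy0
      · simp) (fun k i hi => by
      obtain ⟨w, hw⟩ := hy k i hi
      rw [G_single, hw]
      exact S.smul_mem _ (ht w)) r (by omega)
  simp only [G_single, map_smul, smul_eq_mul] at this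
  have h2 := this.const_mul ((-1 : ℂ) ^ r)
  simp only [← mul_assoc, ← mul_pow, mul_zero] at h2
  simpa using h2

end Pool.Agent.P.MP_e0f0cb_an
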