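import Pool.Agent.P.MP_e0f0cb_an.Local

set_option autoImplicit false

namespace Pool.Agent.P.MP_e0f0cb_an

open Filter Topology Finset

variable {A : Type*} [NormedRing A] [NormedAlgebra ℂ A] [CompleteSpace A]

/-- maximal left ideals -/
abbrev MX (A : Type*) [Ring A] := {M : Ideal A // M.IsMaximal}

instance instClosedMX (M : MX A) : IsClosed ((M.1.restrictScalars ℂ : Submodule ℂ A) : Set A) :=
  Ideal.IsMaximal.isClosed (hI := M.2)

/-- the quotient map -/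
noncomputable def qm (M : MX A) : A →L[ℂ] (A ⧸ M.1.restrictScalars ℂ) :=
  (M.1.restrictScalars ℂ).mkQL

omit [CompleteSpace A] in
lemma qm_eq_zero (M : MX A) (x : A) : qm M x = 0 ↔ x ∈ M.1 :=
  Submodule.Quotient.mk_eq_zero (M.1.restrictScalars ℂ)

lemma qm_le (M : MX A) (x : A) : ‖qm M x‖ ≤ ‖x‖ := Submodule.Quotient.norm_mk_le _ x

omit [NormedAlgebra ℂ A] [CompleteSpace A] in
lemma MX.gen (M : MX A) {v : A} (hv : v ∉ M.1) (w : A) : ∃ r, w - r * v ∈ M.1 := by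
  obtain ⟨y, i, hi, h⟩ := M.2.exists_inv hv
  refine ⟨w * y, ?_⟩
  have : w - w * y * v = w * i := by
    rw [mul_assoc, ← mul_one_sub, ← h, add_sub_cancel_left]
  rw [this]
  exact M.1.mul_mem_left _ hi

/-- boundedness of the `k`-th jet on the simple module `A / M` -/
def Bd (D : A →ₗ[ℂ] A) (M : MX A) (k : ℕ) : Prop := ∀ v, Bdd (fun x => qm M ((D ^ k) x * v))

lemma Bd_zero (D : A →ₗ[ℂ] A) (M : MX A) : Bd D M 0 := fun v =>
  ⟨‖v‖, fun x => (qm_le M _).trans (by rw [mul_comm ‖v‖]; exact norm_mul_le _ _)⟩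

lemma est {D : A →ₗ[ℂ] A} (hD : ∀ a b, D (a * b) = D a * b + a * D b) (M : MX A) (k : ℕ)
    (h : ∀ i < k, Bd D M i) (b c : A) :
    Bdd (fun w => qm M ((D ^ k) (w * b) * c) - qm M ((D ^ k) w * (b * c))) := by
  have : ∀ w, qm M ((D ^ k) (w * b) * c) - qm M ((D ^ k) w * (b * c)) =
      ∑ i ∈ range k, k.choose i • qm M ((D ^ i) w * ((D ^ (k - i)) b * c)) := by
    intro w
    rw [leibniz D hD, sum_range_succ, add_mul, sum_mul, map_add, map_sum]
    simp only [Nat.choose_self, one_smul, Nat.sub_self, pow_zero, Module.End.one_apply,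
      smul_mul_assoc, map_nsmul, mul_assoc, add_sub_cancel_right]
  simp only [this]
  exact Bdd.sum _ (fun i w => k.choose i • qm M ((D ^ i) w * ((D ^ (k - i)) b * c)))
    (fun i hi => (h i (mem_range.1 hi) _).nsmul _)

lemma unb {D : A →ₗ[ℂ] A} (hD : ∀ a b, D (a * b) = D a * b + a * D b) (M : MX A) (k : ℕ)
    (h : ∀ i < k, Bd D M i) (v : A) (hv : v ∉ M.1) (hb : Bdd (fun x => qm M ((D ^ k) x * v))) :
    Bd D M k := by
  intro w
  obtain ⟨r, hr⟩ := M.gen hv w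
  have h1 : Bdd (fun x => qm M ((D ^ k) (x * r) * v)) := by
    obtain ⟨C, hC0, hC⟩ := hb.nonneg
    exact ⟨C * ‖r‖, fun x => (hC _).trans (by
      rw [mul_assoc, mul_comm ‖r‖]; exact mul_le_mul_of_nonneg_left (norm_mul_le _ _) hC0)⟩
  have h2 := h1.sub (est hD M k h r v)
  have h3 : ∀ x, qm M ((D ^ k) x * w) = qm M ((D ^ k) x * (r * v)) := fun x => by
    rw [← sub_eq_zero, ← map_sub, ← mul_sub, qm_eq_zero]
    exact M.1.mul_mem_left _ hr
  simpa only [sub_sub_cancel, ← h3] using h2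

lemma chain_false {D : A →ₗ[ℂ] A} (hD : ∀ a b, D (a * b) = D a * b + a * D b) (m : ℕ)
    (Pr : A → Prop) (hPr : ∀ (l : ℂ) b, l ≠ 0 → Pr b → Pr (l • b)) (s : A) (hs : Pr s)
    (h : ∀ b, Pr b → ∃ (a : A) (M : MX A) (c : A), ¬ Bd D M m ∧ Pr (a * b) ∧ a * b * c ∈ M.1 ∧
      b * c ∉ M.1) : False := by
  have h' : ∀ b, Pr b → ∃ (a : A) (M : MX A) (c : A), ‖a‖ ≤ 1 / 2 ∧ ¬ Bd D M m ∧ Pr (a * b) ∧
      a * b * c ∈ M.1 ∧ b * c ∉ M.1 := by
    intro b hb
    obtain ⟨a, M, c, h1, h2, h3, h4⟩ := h b hb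
    have hp : (0 : ℝ) < (2 * (‖a‖ + 1))⁻¹ := by positivity
    refine ⟨(((2 * (‖a‖ + 1))⁻¹ : ℝ) : ℂ) • a, M, c, ?_, h1, ?_, ?_, h4⟩
    · rw [norm_smul, Complex.norm_real, Real.norm_of_nonneg hp.le, inv_mul_le_iff₀ (by positivity)]
      linarith [norm_nonneg a]
    · rw [smul_mul_assoc]; exact hPr _ _ (Complex.ofReal_ne_zero.2 hp.ne') h2
    · rw [smul_mul_assoc, smul_mul_assoc]
      exact (M.1.restrictScalars ℂ).smul_mem _ h3
  choose a M c e1 e2 e3 e4 e5 using h'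
  let u : ℕ → {b // Pr b} := fun n =>
    Nat.rec ⟨s, hs⟩ (fun _ b => ⟨a b.1 b.2 * b.1, e3 b.1 b.2⟩) n
  have hu1 : ∀ n, (u (n + 1)).1 = a (u n).1 (u n).2 * (u n).1 := fun n => rfl
  refine gliding (fun n => (ContinuousLinearMap.mul ℂ A).flip (a (u n).1 (u n).2))
    (fun n => (ContinuousLinearMap.mul ℂ A).flip (u n).1) (fun n x => ?_) (fun n x => ?_)
    (fun y => ∑ k ∈ range (m + 1), ‖(D ^ k) y‖) (fun n hd => ?_)
  · refine (norm_mul_le _ _).trans ?_
    have := mul_le_mul_of_nonneg_left (e1 (u n).1 (u n).2) (norm_nonneg x)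
    linarith
  · simp only [ContinuousLinearMap.flip_apply, ContinuousLinearMap.mul_apply', hu1, mul_assoc]
  · simp only [ContinuousLinearMap.flip_apply, ContinuousLinearMap.mul_apply', hu1]
    obtain ⟨b, hb⟩ := u n
    simp only
    have f2 := e2 b hb
    have f4 := e4 b hb
    have f5 := e5 b hb
    generalize M b hb = N at f2 f4 f5
    generalize c b hb = γ at f4 f5
    generalize a b hb * b = b' at f4
    classical
    have hex : ∃ k, ¬ Bd D N k := ⟨m, f2⟩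
    have hk : Nat.find hex ≤ m := Nat.find_min' hex f2
    have hlow : ∀ i < Nat.find hex, Bd D N i := fun i hi => not_not.1 (Nat.find_min hex hi)
    have hsp := Nat.find_spec hex
    generalize Nat.find hex = k at hk hlow hsp
    obtain ⟨C1, hC1, g1⟩ := (est hD N k hlow b γ).nonneg
    obtain ⟨C2, hC2, g2⟩ := (est hD N k hlow b' γ).nonneg
    obtain ⟨x, hx1, hx2⟩ := exists_big
      ((qm N).toLinearMap ∘ₗ LinearMap.mulRight ℂ (b * γ) ∘ₗ D ^ k)
      (fun hb => hsp (unb hD N k hlow _ f5 hb)) (n * ‖γ‖ + ‖(D ^ k) hd * γ‖ + C1 + C2 * 2)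
    refine ⟨x, hx1, fun w hw => ?_⟩
    by_contra hle
    push Not at hle
    have p1 : ‖(D ^ k) (hd + x * b + w * b')‖ ≤ n :=
      (single_le_sum (f := fun k => ‖(D ^ k) (hd + x * b + w * b')‖) (fun i _ => norm_nonneg _)
        (mem_range.2 (by omega))).trans hle
    have p2 : qm N ((D ^ k) w * (b' * γ)) = 0 := (qm_eq_zero _ _).2 (N.1.mul_mem_left _ f4)
    have p3 := (g1 x).trans (mul_le_of_le_one_right hC1 hx1)
    have p4 := (g2 w).trans (mul_le_mul_of_nonneg_left hw hC2)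
    simp only [p2, sub_zero] at p4
    have p5 : ‖qm N ((D ^ k) (hd + x * b + w * b') * γ)‖ ≤ n * ‖γ‖ :=
      (qm_le _ _).trans ((norm_mul_le _ _).trans (mul_le_mul_of_nonneg_right p1 (norm_nonneg _)))
    have p6 : qm N ((D ^ k) x * (b * γ)) = qm N ((D ^ k) (hd + x * b + w * b') * γ) -
        qm N ((D ^ k) hd * γ) - (qm N ((D ^ k) (x * b) * γ) - qm N ((D ^ k) x * (b * γ))) -
        qm N ((D ^ k) (w * b') * γ) := by
      simp only [map_add, add_mul]; abel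
    have p7 : ‖qm N ((D ^ k) x * (b * γ))‖ ≤ n * ‖γ‖ + ‖(D ^ k) hd * γ‖ + C1 + C2 * 2 := by
      rw [p6]
      exact (norm_sub_le _ _).trans (add_le_add ((norm_sub_le _ _).trans
        (add_le_add ((norm_sub_le _ _).trans (add_le_add p5 (qm_le _ _))) p3)) p4)
    exact absurd p7 (not_le.2 hx2)

/-- an element of rank one modulo the radical -/
theorem rank_one {D : A →ₗ[ℂ] A} (hD : ∀ a b, D (a * b) = D a * b + a * D b) (M₀ : MX A)
    (hne : ∃ k, ¬ Bd D M₀ k) :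
    ∃ f v : A, v ∉ M₀.1 ∧ f * v - v ∈ M₀.1 ∧ ∀ w, w * v ∈ M₀.1 → ∀ M : MX A, w * f ∈ M.1 := by
  obtain ⟨m, hm⟩ := hne
  simp only [Bd, not_forall] at hm
  obtain ⟨v₁, hv₁⟩ := hm
  obtain ⟨s, hs1, hs2⟩ := sep_exists (D ^ m) ((qm M₀).comp ((ContinuousLinearMap.mul ℂ A).flip v₁))
    hv₁
  have hs3 : ∀ M : MX A, Bd D M m → ∀ c, s * c ∈ M.1 := by
    intro M hM c
    obtain ⟨C, hC⟩ := hM c
    exact (qm_eq_zero _ _).1 (sep_kill (D ^ m)
      ((qm M).comp ((ContinuousLinearMap.mul ℂ A).flip c)) C hC s hs2)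
  have key : ∃ b, ((∃ r, b = r * s) ∧ ∃ v, b * v ∉ M₀.1) ∧ ∀ (a : A) (M : MX A) (c : A),
      ¬ Bd D M m → ((∃ r, a * b = r * s) ∧ ∃ v, a * b * v ∉ M₀.1) → a * b * c ∈ M.1 →
      b * c ∈ M.1 := by
    by_contra hcon
    refine chain_false hD m (fun b => (∃ r, b = r * s) ∧ ∃ v, b * v ∉ M₀.1) ?_ s
      ⟨⟨1, (one_mul s).symm⟩, v₁, fun h => hs1 ((qm_eq_zero _ _).2 h)⟩ (fun b hb => ?_)
    · rintro l b hl ⟨⟨r, hr⟩, v, hv⟩
      refine ⟨⟨l • r, by rw [hr, smul_mul_assoc]⟩, v, fun h => hv ?_⟩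
      rw [smul_mul_assoc] at h
      exact ((M₀.1.restrictScalars ℂ).smul_mem_iff hl).1 h
    · by_contra h2
      refine hcon ⟨b, hb, fun a M c h3 h4 h5 => ?_⟩
      by_contra h6
      exact h2 ⟨a, M, c, h3, h4, h5, h6⟩
  obtain ⟨b, ⟨⟨r, hr⟩, v, hv⟩, hb⟩ := key
  have R1 : ∀ (a : A) (M : MX A), b ∉ M.1 → a * b ∈ M.1 → a * b * v ∈ M₀.1 := by
    intro a M h1 h2
    by_contra h3
    by_cases hM : Bd D M m
    · exact h1 (by rw [hr]; exact M.1.mul_mem_left _ (by simpa using hs3 M hM 1))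
    · exact h1 (by
        simpa using hb a M 1 hM ⟨⟨a * r, by rw [hr, mul_assoc]⟩, v, h3⟩ (by simpa using h2))
  have R2 : ∀ (a : A) (M : MX A), a * b * v ∈ M₀.1 → a * b ∈ M.1 := by
    intro a M h1
    by_contra h2
    obtain ⟨r', hr'⟩ := M.gen h2 b
    have h3 := R1 (1 - r' * a) M (fun h => h2 (M.1.mul_mem_left _ h))
      (by rw [sub_mul, one_mul, mul_assoc]; exact hr')
    have h4 := M₀.1.add_mem h3 (M₀.1.mul_mem_left r' h1)
    apply hv
    convert h4 using 1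
    noncomm_ring
  obtain ⟨a₀, ha₀⟩ := M₀.gen hv v
  refine ⟨a₀ * b, v, fun h => hv (M₀.1.mul_mem_left _ h), ?_, fun w hw M => ?_⟩
  · have := M₀.1.neg_mem ha₀
    rwa [neg_sub, ← mul_assoc] at this
  · rw [← mul_assoc]
    refine R2 _ M ?_
    have := M₀.1.sub_mem hw (M₀.1.mul_mem_left w ha₀)
    convert this using 1
    noncomm_ring

/-- the case of bounded jets -/
theorem bounded_case {D : A →ₗ[ℂ] A} (hD : ∀ a b, D (a * b) = D a * b + a * D b) (M : MX A)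
    (h : ∀ k, Bd D M k) (x : A) (hx : ∀ a, x * a ∈ M.1) (c : A) : D x * c ∈ M.1 := by
  by_contra hc
  let P : Submodule ℂ A :=
    { carrier := {y | ∀ a, y * a ∈ M.1}
      add_mem' := fun {y z} hy hz a => by rw [add_mul]; exact M.1.add_mem (hy a) (hz a)
      zero_mem' := fun a => by simp
      smul_mem' := fun l y hy a => by
        rw [smul_mul_assoc]; exact (M.1.restrictScalars ℂ).smul_mem _ (hy a) }
  have hl : ∀ a y, y ∈ P → a * y ∈ P := fun a y hy b => by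
    rw [mul_assoc]; exact M.1.mul_mem_left _ (hy b)
  have hr : ∀ a y, y ∈ P → y * a ∈ P := fun a y hy b => by rw [mul_assoc]; exact hy _
  obtain ⟨r, hr'⟩ := M.gen hc c
  have hc0 : c ∉ M.1 := fun h => hc (M.1.mul_mem_left _ h)
  have hy : r * x ∈ P := hl r x hx
  have h1 : D (r * x) * c - c ∈ M.1 := by
    have := M.1.sub_mem (hl (D r) x hx c) hr'
    convert this using 1
    rw [hD]; noncomm_ring
  have h2 : ∀ n, D (r * x) ^ n * c - c ∈ M.1 := fun n => by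
    induction n with
    | zero => simp
    | succ n ih =>
      have := M.1.add_mem (M.1.mul_mem_left (D (r * x)) ih) h1
      convert this using 1
      rw [pow_succ']; noncomm_ring
  obtain ⟨C, K, hC, hK, hb⟩ := sinclair D ((qm M).toLinearMap ∘ₗ LinearMap.mulRight ℂ c)
    (fun k => Bdd.cont _ (h k c))
  have hp : 0 < ‖qm M c‖ := norm_pos_iff.2 (fun h => hc0 ((qm_eq_zero _ _).1 h))
  refine fact_contra (C / ‖qm M c‖) (K * ‖r * x‖) (fun n hn => ?_)
  have e1 := (pow_leibniz D hD P hl hr _ hy n).2 c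
  have e2 : qm M ((D ^ n) ((r * x) ^ n) * c) = (n.factorial : ℂ) • qm M c := by
    rw [← map_smul, ← sub_eq_zero, ← map_sub, qm_eq_zero]
    have := M.1.add_mem e1 ((M.1.restrictScalars ℂ).smul_mem (n.factorial : ℂ) (h2 n))
    convert this using 1
    rw [sub_mul, smul_mul_assoc, smul_sub]; abel
  have e3 : ‖qm M ((D ^ n) ((r * x) ^ n) * c)‖ ≤ _ := hb n ((r * x) ^ n)
  rw [e2, norm_smul, Complex.norm_natCast] at e3
  rw [div_mul_eq_mul_div, le_div_iff₀ hp, mul_pow, ← mul_assoc]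
  exact e3.trans (mul_le_mul_of_nonneg_left (norm_pow_le' _ hn) (by positivity))

end Pool.Agent.P.MP_e0f0cb_an
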